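import Pool.Agent.Run7.h232.Pinch.Normal

/-!
# Algebraic curvature forms: Berger's inequality and positivity of the curvature operator
-/

open Finset Module

namespace Run7.h232.Pinch

variable {V : Type*} [AddCommGroup V] [Module ℝ V]

/-- `R` has the symmetries of a curvature tensor, with the convention that
`R x y y x` is positive on the round sphere -/
structure CurvForm (R : V → V → V → V → ℝ) : Prop where
  add₁ : ∀ x x' y z w, R (x + x') y z w = R x y z w + R x' y z w
  smul₁ : ∀ (c : ℝ) x y z w, R (c • x) y z w = c * R x y z w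
  skew₁₂ : ∀ x y z w, R x y z w = -R y x z w
  skew₃₄ : ∀ x y z w, R x y z w = -R x y w z
  bianchi : ∀ x y z w, R x y z w + R y z x w + R z x y w = 0

namespace CurvForm

variable {R : V → V → V → V → ℝ} (h : CurvForm R)

include h

theorem pair (x y z w : V) : R x y z w = R z w x y := by
  have a1 := h.bianchi x y z w
  have a2 := h.bianchi y z w x
  have a3 := h.bianchi z w x y
  have a4 := h.bianchi w x y z
  have b1 := h.skew₃₄ y z w x
  have b2 := h.skew₃₄ z w y x
  have b3 := h.skew₃₄ z w x y
  have b4 := h.skew₁₂ w y z x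
  have b5 := h.skew₃₄ w x z y
  have b6 := h.skew₃₄ x z w y
  have b7 := h.skew₁₂ z x w y
  have b8 := h.skew₃₄ w x y z
  have b9 := h.skew₁₂ y w x z
  have c1 := h.skew₃₄ y w z x
  have c2 := h.skew₁₂ x z w y
  have c3 := h.skew₃₄ x y w z
  have c4 := h.skew₃₄ z x y w
  linarith

theorem add₂ (x y y' z w : V) : R x (y + y') z w = R x y z w + R x y' z w := by
  rw [h.skew₁₂, h.add₁, h.skew₁₂ y, h.skew₁₂ y']; ring

theorem add₃ (x y z z' w : V) : R x y (z + z') w = R x y z w + R x y z' w := by
  rw [h.pair, h.add₁, h.pair z, h.pair z']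

theorem add₄ (x y z w w' : V) : R x y z (w + w') = R x y z w + R x y z w' := by
  rw [h.skew₃₄, h.add₃, h.skew₃₄ x y w, h.skew₃₄ x y w']; ring

theorem smul₂ (c : ℝ) (x y z w : V) : R x (c • y) z w = c * R x y z w := by
  rw [h.skew₁₂, h.smul₁, h.skew₁₂ y]; ring

theorem smul₃ (c : ℝ) (x y z w : V) : R x y (c • z) w = c * R x y z w := by
  rw [h.pair, h.smul₁, h.pair z]

theorem smul₄ (c : ℝ) (x y z w : V) : R x y z (c • w) = c * R x y z w := by
  rw [h.skew₃₄, h.smul₃, h.skew₃₄ x y w]; ring

theorem neg₁ (x y z w : V) : R (-x) y z w = -R x y z w := by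
  have := h.smul₁ (-1) x y z w; simpa using this

theorem neg₂ (x y z w : V) : R x (-y) z w = -R x y z w := by
  have := h.smul₂ (-1) x y z w; simpa using this

theorem neg₃ (x y z w : V) : R x y (-z) w = -R x y z w := by
  have := h.smul₃ (-1) x y z w; simpa using this

theorem neg₄ (x y z w : V) : R x y z (-w) = -R x y z w := by
  have := h.smul₄ (-1) x y z w; simpa using this

theorem sub₁ (x x' y z w : V) : R (x - x') y z w = R x y z w - R x' y z w := by
  rw [sub_eq_add_neg, h.add₁, h.neg₁]; ring

theorem sub₂ (x y y' z w : V) : R x (y - y') z w = R x y z w - R x y' z w := by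
  rw [sub_eq_add_neg, h.add₂, h.neg₂]; ring

theorem sub₃ (x y z z' w : V) : R x y (z - z') w = R x y z w - R x y z' w := by
  rw [sub_eq_add_neg, h.add₃, h.neg₃]; ring

theorem sub₄ (x y z w w' : V) : R x y z (w - w') = R x y z w - R x y z w' := by
  rw [sub_eq_add_neg, h.add₄, h.neg₄]; ring

theorem self₁₂ (x z w : V) : R x x z w = 0 := by
  have := h.skew₁₂ x x z w; linarith

theorem self₃₄ (x y z : V) : R x y z z = 0 := by
  have := h.skew₃₄ x y z z; linarith

theorem zero₁ (y z w : V) : R 0 y z w = 0 := by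
  have := h.smul₁ 0 0 y z w; simpa using this

theorem zero₂ (x z w : V) : R x 0 z w = 0 := by
  rw [h.skew₁₂, h.zero₁]; simp

theorem zero₃ (x y w : V) : R x y 0 w = 0 := by
  rw [h.pair, h.zero₁]

theorem zero₄ (x y z : V) : R x y z 0 = 0 := by
  rw [h.skew₃₄, h.zero₃]; simp

theorem sum₁ {ι : Type*} (s : Finset ι) (f : ι → V) (y z w : V) :
    R (∑ i ∈ s, f i) y z w = ∑ i ∈ s, R (f i) y z w := by
  classical
  induction s using Finset.induction_on with
  | empty => simp [h.zero₁]
  | insert a s ha ih => rw [sum_insert ha, sum_insert ha, h.add₁, ih]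

theorem sum₂ {ι : Type*} (s : Finset ι) (f : ι → V) (x z w : V) :
    R x (∑ i ∈ s, f i) z w = ∑ i ∈ s, R x (f i) z w := by
  classical
  induction s using Finset.induction_on with
  | empty => simp [h.zero₂]
  | insert a s ha ih => rw [sum_insert ha, sum_insert ha, h.add₂, ih]

/-- polarisation: the curvature tensor from the quadratic form `R x y y x` -/
theorem polar (x y z w : V) :
    24 * R x y z w =
      R (x + w) (y + z) (y + z) (x + w) - R (x - w) (y + z) (y + z) (x - w)
      - R (x + w) (y - z) (y - z) (x + w) + R (x - w) (y - z) (y - z) (x - w)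
      - R (x + z) (y + w) (y + w) (x + z) + R (x - z) (y + w) (y + w) (x - z)
      + R (x + z) (y - w) (y - w) (x + z) - R (x - z) (y - w) (y - w) (x - z) := by
  simp only [h.add₁, h.add₂, h.add₃, h.add₄, h.sub₁, h.sub₂, h.sub₃, h.sub₄]
  have p1 := h.pair w z y x
  have p2 := h.pair w y z x
  have p3 := h.pair x z y w
  have p4 := h.pair z w y x
  have p5 := h.pair z y w x
  have p6 := h.pair x w y z
  have s1 := h.skew₁₂ y x w z
  have s2 := h.skew₃₄ x y w z
  have s3 := h.skew₁₂ y x z w
  have b1 := h.bianchi w y z x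
  have b2 := h.bianchi x y z w
  have q1 := h.skew₁₂ y z w x
  have q2 := h.skew₁₂ z w y x
  have q3 := h.pair y z x w
  have q4 := h.pair z x y w
  have q5 := h.skew₁₂ z x y w
  have q6 := h.skew₁₂ y z x w
  have q7 := h.skew₃₄ z y w x
  have q8 := h.skew₃₄ x w z y
  linarith

end CurvForm

end Run7.h232.Pinch
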