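import Pool.Agent.Run7.h232.Pinch.Alg

/-!
# Berger's inequality and positivity of the curvature operator under pinching
-/

set_option linter.unusedSimpArgs false

open Finset Module

namespace Run7.h232.Pinch

variable {V : Type*} [NormedAddCommGroup V] [InnerProductSpace ℝ V]

/-- squared area of the parallelogram spanned by `x` and `y` -/
noncomputable def area2 (x y : V) : ℝ := inner ℝ x x * inner ℝ y y - inner ℝ x y ^ 2

/-- **Berger's inequality** -/
theorem berger {R : V → V → V → V → ℝ} (h : CurvForm R) {κ D : ℝ}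
    (hlo : ∀ x y, κ * area2 x y ≤ R x y y x) (hhi : ∀ x y, R x y y x ≤ D * area2 x y)
    {x y z w : V} (hxx : inner ℝ x x = 1) (hyy : inner ℝ y y = 1) (hzz : inner ℝ z z = 1)
    (hww : inner ℝ w w = 1) (hxy : inner ℝ x y = 0) (hxz : inner ℝ x z = 0)
    (hxw : inner ℝ x w = 0) (hyz : inner ℝ y z = 0) (hyw : inner ℝ y w = 0)
    (hzw : inner ℝ z w = 0) : |R x y z w| ≤ 2 / 3 * (D - κ) := by
  have hyx : inner ℝ y x = 0 := by rw [real_inner_comm]; exact hxy
  have hzx : inner ℝ z x = 0 := by rw [real_inner_comm]; exact hxz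
  have hwx : inner ℝ w x = 0 := by rw [real_inner_comm]; exact hxw
  have hzy : inner ℝ z y = 0 := by rw [real_inner_comm]; exact hyz
  have hwy : inner ℝ w y = 0 := by rw [real_inner_comm]; exact hyw
  have hwz : inner ℝ w z = 0 := by rw [real_inner_comm]; exact hzw
  have hp := h.polar x y z w
  have e1 : area2 (x + w) (y + z) = 4 := by
    simp only [area2, inner_add_left, inner_add_right, hxx, hyy, hzz, hww, hxy, hxz, hxw, hyz,
      hyw, hzw, hyx, hzx, hwx, hzy, hwy, hwz]; norm_num
  have e2 : area2 (x - w) (y + z) = 4 := by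
    simp only [area2, inner_add_left, inner_add_right, inner_sub_left, inner_sub_right, hxx, hyy,
      hzz, hww, hxy, hxz, hxw, hyz, hyw, hzw, hyx, hzx, hwx, hzy, hwy, hwz]; norm_num
  have e3 : area2 (x + w) (y - z) = 4 := by
    simp only [area2, inner_add_left, inner_add_right, inner_sub_left, inner_sub_right, hxx, hyy,
      hzz, hww, hxy, hxz, hxw, hyz, hyw, hzw, hyx, hzx, hwx, hzy, hwy, hwz]; norm_num
  have e4 : area2 (x - w) (y - z) = 4 := by
    simp only [area2, inner_sub_left, inner_sub_right, hxx, hyy,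
      hzz, hww, hxy, hxz, hxw, hyz, hyw, hzw, hyx, hzx, hwx, hzy, hwy, hwz]; norm_num
  have e5 : area2 (x + z) (y + w) = 4 := by
    simp only [area2, inner_add_left, inner_add_right, hxx, hyy,
      hzz, hww, hxy, hxz, hxw, hyz, hyw, hzw, hyx, hzx, hwx, hzy, hwy, hwz]; norm_num
  have e6 : area2 (x - z) (y + w) = 4 := by
    simp only [area2, inner_add_left, inner_add_right, inner_sub_left, inner_sub_right, hxx, hyy,
      hzz, hww, hxy, hxz, hxw, hyz, hyw, hzw, hyx, hzx, hwx, hzy, hwy, hwz]; norm_num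
  have e7 : area2 (x + z) (y - w) = 4 := by
    simp only [area2, inner_add_left, inner_add_right, inner_sub_left, inner_sub_right, hxx, hyy,
      hzz, hww, hxy, hxz, hxw, hyz, hyw, hzw, hyx, hzx, hwx, hzy, hwy, hwz]; norm_num
  have e8 : area2 (x - z) (y - w) = 4 := by
    simp only [area2, inner_sub_left, inner_sub_right, hxx, hyy,
      hzz, hww, hxy, hxz, hxw, hyz, hyw, hzw, hyx, hzx, hwx, hzy, hwy, hwz]; norm_num
  have l1 := hlo (x + w) (y + z); have u1 := hhi (x + w) (y + z)
  have l2 := hlo (x - w) (y + z); have u2 := hhi (x - w) (y + z)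
  have l3 := hlo (x + w) (y - z); have u3 := hhi (x + w) (y - z)
  have l4 := hlo (x - w) (y - z); have u4 := hhi (x - w) (y - z)
  have l5 := hlo (x + z) (y + w); have u5 := hhi (x + z) (y + w)
  have l6 := hlo (x - z) (y + w); have u6 := hhi (x - z) (y + w)
  have l7 := hlo (x + z) (y - w); have u7 := hhi (x + z) (y - w)
  have l8 := hlo (x - z) (y - w); have u8 := hhi (x - z) (y - w)
  rw [e1] at l1 u1; rw [e2] at l2 u2; rw [e3] at l3 u3; rw [e4] at l4 u4
  rw [e5] at l5 u5; rw [e6] at l6 u6; rw [e7] at l7 u7; rw [e8] at l8 u8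
  rw [abs_le]
  constructor <;> linarith

/-- The curvature operator in the normal form. -/
theorem quad_lower {R : V → V → V → V → ℝ} (h : CurvForm R) {κ D : ℝ}
    (hlo : ∀ x y, κ * area2 x y ≤ R x y y x) (hhi : ∀ x y, R x y y x ≤ D * area2 x y)
    (hκD : κ ≤ D) {m : ℕ} {e e' : Fin m → V} (t : Fin m → ℝ)
    (h1 : ∀ a b, inner ℝ (e a) (e b) = if a = b then (1 : ℝ) else 0)
    (h2 : ∀ a b, inner ℝ (e' a) (e' b) = if a = b then (1 : ℝ) else 0)
    (h3 : ∀ a b, inner ℝ (e a) (e' b) = (0 : ℝ)) :
    (κ - 2 / 3 * (D - κ) * ((m : ℝ) - 1)) * ∑ a, t a ^ 2 ≤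
      ∑ a, ∑ b, t a * t b * R (e a) (e' a) (e' b) (e b) := by
  have hterm : ∀ a b, (if a = b then κ * t a ^ 2 else
      -(2 / 3 * (D - κ)) * ((t a ^ 2 + t b ^ 2) / 2)) ≤
      t a * t b * R (e a) (e' a) (e' b) (e b) := by
    intro a b
    split_ifs with hab
    · subst hab
      have hl := hlo (e a) (e' a)
      have : area2 (e a) (e' a) = 1 := by
        have h11 := h1 a a
        have h22 := h2 a a
        rw [if_pos rfl] at h11 h22
        rw [area2, h11, h22, h3]; norm_num
      rw [this] at hl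
      nlinarith [sq_nonneg (t a)]
    · have hb := berger h hlo hhi (x := e a) (y := e' a) (z := e' b) (w := e b)
        (by rw [h1]; simp) (by rw [h2]; simp) (by rw [h2]; simp) (by rw [h1]; simp)
        (h3 _ _) (h3 _ _) (by rw [h1]; simp [hab]) (by rw [h2]; simp [hab])
        (by rw [real_inner_comm]; exact h3 _ _) (by rw [real_inner_comm]; exact h3 _ _)
      have h4 : |t a * t b| ≤ (t a ^ 2 + t b ^ 2) / 2 := by
        rw [abs_le]
        constructor <;> nlinarith [sq_nonneg (t a + t b), sq_nonneg (t a - t b)]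
      have h5 : |t a * t b * R (e a) (e' a) (e' b) (e b)| ≤
          (t a ^ 2 + t b ^ 2) / 2 * (2 / 3 * (D - κ)) := by
        rw [abs_mul]
        exact mul_le_mul h4 hb (abs_nonneg _) (by positivity)
      have h6 := (abs_le.1 h5).1
      linarith
  calc (κ - 2 / 3 * (D - κ) * ((m : ℝ) - 1)) * ∑ a, t a ^ 2
      = ∑ a, ∑ b, (if a = b then κ * t a ^ 2 else
      -(2 / 3 * (D - κ)) * ((t a ^ 2 + t b ^ 2) / 2)) := by
        have key : ∀ a : Fin m, ∑ b, (if a = b then κ * t a ^ 2 else
            -(2 / 3 * (D - κ)) * ((t a ^ 2 + t b ^ 2) / 2)) =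
            κ * t a ^ 2 + (2 / 3 * (D - κ)) * t a ^ 2
              - (2 / 3 * (D - κ)) / 2 * ((m : ℝ) * t a ^ 2 + ∑ b, t b ^ 2) := by
          intro a
          have : ∀ b, (if a = b then κ * t a ^ 2 else
              -(2 / 3 * (D - κ)) * ((t a ^ 2 + t b ^ 2) / 2)) =
              (if a = b then κ * t a ^ 2 + (2 / 3 * (D - κ)) * t a ^ 2 else 0) +
              -(2 / 3 * (D - κ)) * ((t a ^ 2 + t b ^ 2) / 2) := by
            intro b
            split_ifs with hab
            · subst hab; ring
            · ring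
          rw [sum_congr rfl (fun b _ => this b), sum_add_distrib, sum_ite_eq, if_pos (mem_univ _),
            ← mul_sum, ← sum_div, sum_add_distrib, sum_const, card_univ, Fintype.card_fin,
            nsmul_eq_mul]
          ring
        rw [sum_congr rfl (fun a _ => key a), sum_sub_distrib, sum_add_distrib, ← mul_sum,
          ← mul_sum, ← mul_sum, sum_add_distrib, ← mul_sum, sum_const, card_univ,
          Fintype.card_fin, nsmul_eq_mul]
        ring
    _ ≤ _ := sum_le_sum fun a _ => sum_le_sum fun b _ => hterm a b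

end Run7.h232.Pinch
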