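import Pool.Agent.Run7.h232.Pinch.Defs0
import Pool.Agent.Run7.h232.Pinch.Alg

/-!
# The curvature tensor of a metric is an algebraic curvature form
-/

set_option linter.unusedSimpArgs false
set_option maxSynthPendingDepth 3
set_option linter.unusedSectionVars false
set_option linter.deprecated false

open Finset Module Filter Topology

namespace Run7.h232.Pinch

variable {E : Type*} [NormedAddCommGroup E] [NormedSpace ℝ E]

/-- `g` is a `C²` metric near `x` -/
structure MetricAt (g : E → E →L[ℝ] E →L[ℝ] ℝ) (x : E) : Prop where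
  smooth : ContDiffAt ℝ 2 g x
  symm : ∀ᶠ y in 𝓝 x, ∀ u v, g y u v = g y v u
  pos : ∀ u, u ≠ 0 → 0 < g x u u

variable [FiniteDimensional ℝ E] {g : E → E →L[ℝ] E →L[ℝ] ℝ} {x : E}

theorem isInvertible_of_pos {B : E →L[ℝ] E →L[ℝ] ℝ} (h : ∀ u, u ≠ 0 → 0 < B u u) :
    B.IsInvertible := by
  have hinj : Function.Injective (B : E →ₗ[ℝ] (E →L[ℝ] ℝ)) := by
    rw [← LinearMap.ker_eq_bot, LinearMap.ker_eq_bot']
    intro u hu
    by_contra hne
    have := h u hne
    have h2 : B u = 0 := hu
    rw [h2] at this
    simp at this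
  have hdim : finrank ℝ E = finrank ℝ (E →L[ℝ] ℝ) := by
    rw [← (LinearMap.toContinuousLinearMap (𝕜 := ℝ) (E := E) (F' := ℝ)).finrank_eq]
    exact (Subspace.dual_finrank_eq (K := ℝ) (V := E)).symm
  let e := LinearEquiv.toContinuousLinearEquiv
    (LinearMap.linearEquivOfInjective (B : E →ₗ[ℝ] (E →L[ℝ] ℝ)) hinj hdim)
  refine ⟨e, ?_⟩
  ext u v
  rfl

theorem MetricAt.inv (h : MetricAt g x) : (g x).IsInvertible := isInvertible_of_pos h.pos

theorem MetricAt.inv_ev (h : MetricAt g x) : ∀ᶠ y in 𝓝 x, (g y).IsInvertible := by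
  have : CompleteSpace E := FiniteDimensional.complete ℝ E
  obtain ⟨e, he⟩ := h.inv
  have h1 := e.nhds
  rw [he] at h1
  have h2 := h.smooth.continuousAt h1
  filter_upwards [h2] with y hy
  obtain ⟨e', he'⟩ := hy
  exact ⟨e', he'⟩

theorem MetricAt.diff_ev (h : MetricAt g x) : ∀ᶠ y in 𝓝 x, DifferentiableAt ℝ g y := by
  have := h.smooth.eventually (by simp)
  filter_upwards [this] with y hy
  exact hy.differentiableAt (by norm_num)

theorem fderiv_apply2 {y : E} (hd : DifferentiableAt ℝ g y) (u v w : E) :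
    fderiv ℝ (fun y' => g y' u v) y w = fderiv ℝ g y w u v := by
  have h1 : HasFDerivAt g (fderiv ℝ g y) y := hd.hasFDerivAt
  have h2 := (h1.clm_apply (hasFDerivAt_const u y)).clm_apply (hasFDerivAt_const v y)
  rw [h2.fderiv]
  simp

/-- the right-hand side of Koszul's formula -/
noncomputable def kos (g : E → E →L[ℝ] E →L[ℝ] ℝ) (y u v : E) : E →L[ℝ] ℝ :=
  (1 / 2 : ℝ) • (fderiv ℝ g y u v + fderiv ℝ g y v u - fderiv ℝ (fun y => g y u v) y)

theorem christoffel_eq (y u v : E) : christoffel g y u v = (g y).inverse (kos g y u v) := rfl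

theorem kos_apply {y : E} (hd : DifferentiableAt ℝ g y) (u v w : E) :
    kos g y u v w = 1 / 2 * (fderiv ℝ g y u v w + fderiv ℝ g y v u w - fderiv ℝ g y w u v) := by
  simp only [kos, ContinuousLinearMap.smul_apply, ContinuousLinearMap.sub_apply,
    ContinuousLinearMap.add_apply, smul_eq_mul]
  rw [fderiv_apply2 hd]

theorem g_christoffel {y : E} (hi : (g y).IsInvertible) (u v : E) :
    g y (christoffel g y u v) = kos g y u v := by
  rw [christoffel_eq]
  obtain ⟨e, he⟩ := hi
  rw [← he, ContinuousLinearMap.inverse_equiv]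
  simp

/-- derivative of the Christoffel symbols of the first kind -/
theorem hasFDerivAt_kos (h : MetricAt g x) (u v : E) :
    ∃ K' : E →L[ℝ] E →L[ℝ] ℝ, HasFDerivAt (fun y => kos g y u v) K' x ∧
      ∀ a w, K' a w = 1 / 2 * (fderiv ℝ (fderiv ℝ g) x a u v w + fderiv ℝ (fderiv ℝ g) x a v u w
        - fderiv ℝ (fderiv ℝ g) x a w u v) := by
  have hD : DifferentiableAt ℝ (fderiv ℝ g) x := by
    have : ContDiffAt ℝ 1 (fderiv ℝ g) x := h.smooth.fderiv_right (by norm_num)
    exact this.differentiableAt (by norm_num)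
  set D2 := fderiv ℝ (fderiv ℝ g) x with hD2
  have hDh : HasFDerivAt (fderiv ℝ g) D2 x := hD.hasFDerivAt
  -- derivative of `y ↦ fderiv g y u v`
  have e1 : ∀ u v : E, HasFDerivAt (fun y => fderiv ℝ g y u v)
      (((ContinuousLinearMap.apply ℝ (E →L[ℝ] ℝ) v).comp
        (ContinuousLinearMap.apply ℝ (E →L[ℝ] E →L[ℝ] ℝ) u)).comp D2) x := by
    intro u v
    exact (((ContinuousLinearMap.apply ℝ (E →L[ℝ] ℝ) v).comp
      (ContinuousLinearMap.apply ℝ (E →L[ℝ] E →L[ℝ] ℝ) u)).hasFDerivAt).comp x hDh
  -- the third term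
  let T : (E →L[ℝ] E →L[ℝ] E →L[ℝ] ℝ) →L[ℝ] (E →L[ℝ] ℝ) :=
    ContinuousLinearMap.compL ℝ E (E →L[ℝ] E →L[ℝ] ℝ) ℝ
      ((ContinuousLinearMap.apply ℝ ℝ v).comp (ContinuousLinearMap.apply ℝ (E →L[ℝ] ℝ) u))
  have hT : ∀ L w, T L w = L w u v := by intro L w; simp [T]
  have e3 : HasFDerivAt (fun y => fderiv ℝ (fun y' => g y' u v) y) (T.comp D2) x := by
    have h1 : HasFDerivAt (fun y => T (fderiv ℝ g y)) (T.comp D2) x := T.hasFDerivAt.comp x hDh
    refine h1.congr_of_eventuallyEq ?_
    filter_upwards [h.diff_ev] with y hy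
    ext w
    rw [fderiv_apply2 hy, hT]
  refine ⟨_, (((e1 u v).add (e1 v u)).sub e3).const_smul (1 / 2 : ℝ), ?_⟩
  intro a w
  simp [hT]

theorem differentiableAt_christoffel (h : MetricAt g x) (u v : E) :
    DifferentiableAt ℝ (fun y => christoffel g y u v) x := by
  have : CompleteSpace E := FiniteDimensional.complete ℝ E
  obtain ⟨K', hK, -⟩ := hasFDerivAt_kos h u v
  have h1 : DifferentiableAt ℝ (fun y => (g y).inverse) x := by
    have h2 := h.inv.contDiffAt_map_inverse (n := 2)
    have h3 : ContDiffAt ℝ 2 (fun y => (g y).inverse) x := h2.comp x h.smooth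
    exact h3.differentiableAt (by norm_num)
  exact h1.clm_apply hK.differentiableAt

theorem g_fderiv_christoffel (h : MetricAt g x) (a u v w : E) :
    g x (fderiv ℝ (fun y => christoffel g y u v) x a) w =
      1 / 2 * (fderiv ℝ (fderiv ℝ g) x a u v w + fderiv ℝ (fderiv ℝ g) x a v u w
        - fderiv ℝ (fderiv ℝ g) x a w u v) - fderiv ℝ g x a (christoffel g x u v) w := by
  obtain ⟨K', hK, hK'⟩ := hasFDerivAt_kos h u v
  have h1 : HasFDerivAt g (fderiv ℝ g x) x :=
    (h.smooth.differentiableAt (by norm_num)).hasFDerivAt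
  have h2 := (differentiableAt_christoffel h u v).hasFDerivAt
  have h3 := h1.clm_apply h2
  have h4 : HasFDerivAt (fun y => g y (christoffel g y u v)) K' x := by
    refine hK.congr_of_eventuallyEq ?_
    filter_upwards [h.inv_ev] with y hy
    exact g_christoffel hy u v
  have h5 := h3.unique h4
  have h6 : K' a w = g x (fderiv ℝ (fun y => christoffel g y u v) x a) w +
      fderiv ℝ g x a (christoffel g x u v) w := by
    rw [← h5]
    simp
  rw [hK'] at h6
  linarith

/-- the second derivative is symmetric -/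
theorem snd_symm (h : MetricAt g x) (a b : E) :
    fderiv ℝ (fderiv ℝ g) x a b = fderiv ℝ (fderiv ℝ g) x b a := by
  have := h.smooth.isSymmSndFDerivAt (by simp [minSmoothness])
  exact this a b

theorem fst_flip (h : MetricAt g x) : ∀ᶠ y in 𝓝 x, ∀ a u v,
    fderiv ℝ g y a u v = fderiv ℝ g y a v u := by
  have h1 := h.symm.eventually_nhds
  filter_upwards [h1, h.diff_ev] with y hy hd a u v
  rw [← fderiv_apply2 hd, ← fderiv_apply2 hd]
  have : (fun y' => g y' u v) =ᶠ[𝓝 y] (fun y' => g y' v u) := by
    filter_upwards [hy] with y' hy'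
    exact hy' u v
  rw [this.fderiv_eq]

theorem snd_flip (h : MetricAt g x) (a b u v : E) :
    fderiv ℝ (fderiv ℝ g) x a b u v = fderiv ℝ (fderiv ℝ g) x a b v u := by
  have hD : DifferentiableAt ℝ (fderiv ℝ g) x := by
    have : ContDiffAt ℝ 1 (fderiv ℝ g) x := h.smooth.fderiv_right (by norm_num)
    exact this.differentiableAt (by norm_num)
  have key : ∀ u v : E, fderiv ℝ (fun y => fderiv ℝ g y b u v) x a =
      fderiv ℝ (fderiv ℝ g) x a b u v := by
    intro u v
    have h2 := (((hD.hasFDerivAt).clm_apply (hasFDerivAt_const b x)).clm_apply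
      (hasFDerivAt_const u x)).clm_apply (hasFDerivAt_const v x)
    rw [h2.fderiv]
    simp
  rw [← key, ← key]
  have : (fun y => fderiv ℝ g y b u v) =ᶠ[𝓝 x] (fun y => fderiv ℝ g y b v u) := by
    filter_upwards [fst_flip h] with y hy
    exact hy b u v
  rw [this.fderiv_eq]

/-- the classical formula for the curvature tensor -/
theorem curv_eq (h : MetricAt g x) (u v w z : E) :
    curv g x u v w z = 1 / 2 * (fderiv ℝ (fderiv ℝ g) x u w v z - fderiv ℝ (fderiv ℝ g) x u z v w
      - fderiv ℝ (fderiv ℝ g) x v w u z + fderiv ℝ (fderiv ℝ g) x v z u w)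
      - g x (christoffel g x u z) (christoffel g x v w)
      + g x (christoffel g x v z) (christoffel g x u w) := by
  have hd : DifferentiableAt ℝ g x := h.smooth.differentiableAt (by norm_num)
  have hfl := (fst_flip h).self_of_nhds
  have hsy := h.symm.self_of_nhds
  simp only [curv, riemann, map_add, map_sub, ContinuousLinearMap.add_apply,
    ContinuousLinearMap.sub_apply]
  rw [g_fderiv_christoffel h, g_fderiv_christoffel h, g_christoffel h.inv, g_christoffel h.inv,
    g_christoffel h.inv, g_christoffel h.inv, kos_apply hd, kos_apply hd, kos_apply hd,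
    kos_apply hd, snd_symm h u v, hfl z u, hfl z v, hfl u z, hfl v z]
  rw [hfl (christoffel g x v w) u z, hfl (christoffel g x u w) v z]
  ring

theorem christoffel_add₁ (hd : DifferentiableAt ℝ g x) (u u' v : E) :
    christoffel g x (u + u') v = christoffel g x u v + christoffel g x u' v := by
  rw [christoffel_eq, christoffel_eq, christoffel_eq, ← map_add]
  congr 1
  ext w
  rw [ContinuousLinearMap.add_apply, kos_apply hd, kos_apply hd, kos_apply hd]
  simp only [map_add, ContinuousLinearMap.add_apply]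
  ring

theorem christoffel_smul₁ (hd : DifferentiableAt ℝ g x) (c : ℝ) (u v : E) :
    christoffel g x (c • u) v = c • christoffel g x u v := by
  rw [christoffel_eq, christoffel_eq, ← map_smul]
  congr 1
  ext w
  rw [ContinuousLinearMap.smul_apply, kos_apply hd, kos_apply hd]
  simp only [map_smul, ContinuousLinearMap.smul_apply, smul_eq_mul]
  ring

theorem curvForm (h : MetricAt g x) : CurvForm (curv g x) where
  add₁ := by
    intro u u' v w z
    have hd : DifferentiableAt ℝ g x := h.smooth.differentiableAt (by norm_num)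
    rw [curv_eq h, curv_eq h, curv_eq h, christoffel_add₁ hd, christoffel_add₁ hd]
    simp only [map_add, ContinuousLinearMap.add_apply]
    ring
  smul₁ := by
    intro c u v w z
    have hd : DifferentiableAt ℝ g x := h.smooth.differentiableAt (by norm_num)
    rw [curv_eq h, curv_eq h, christoffel_smul₁ hd, christoffel_smul₁ hd]
    simp only [map_smul, ContinuousLinearMap.smul_apply, smul_eq_mul]
    ring
  skew₁₂ := by
    intro u v w z
    rw [curv_eq h, curv_eq h]
    ring
  skew₃₄ := by
    intro u v w z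
    have hsy := h.symm.self_of_nhds
    rw [curv_eq h, curv_eq h, hsy (christoffel g x u w), hsy (christoffel g x v w)]
    ring
  bianchi := by
    intro u v w z
    have hsy := h.symm.self_of_nhds
    have hd : DifferentiableAt ℝ g x := h.smooth.differentiableAt (by norm_num)
    have hc : ∀ a b, christoffel g x a b = christoffel g x b a := by
      intro a b
      rw [christoffel_eq, christoffel_eq]
      congr 1
      ext c
      have hfl := (fst_flip h).self_of_nhds
      rw [kos_apply hd, kos_apply hd, hfl c a b]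
      ring
    rw [curv_eq h, curv_eq h, curv_eq h, hc v u, hc w u, hc w v,
      snd_symm h v u, snd_symm h w u, snd_symm h w v]
    have f1 := snd_flip h u z v w
    have f2 := snd_flip h v z u w
    have f3 := snd_flip h w z v u
    linarith

end Run7.h232.Pinch
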