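import Mathlib

/-!
# Curvature of a Riemannian metric in local coordinates
-/

namespace Run7.h232.Pinch

variable {E : Type*} [NormedAddCommGroup E] [NormedSpace ℝ E]

/-- The Christoffel map of the metric `g` in coordinates: `christoffel g x u v` is the value at `x`
of the Levi-Civita covariant derivative `∇_u v` of the constant vector field `v` in the direction
`u`, that is, the vector given by Koszul's formula
`2 g_x(∇_u v, w) = (D_u g)_x(v, w) + (D_v g)_x(u, w) - (D_w g)_x(u, v)`. -/
noncomputable def christoffel (g : E → E →L[ℝ] E →L[ℝ] ℝ) (x u v : E) : E :=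
  (g x).inverse ((1 / 2 : ℝ) • (fderiv ℝ g x u v + fderiv ℝ g x v u - fderiv ℝ (fun y => g y u v) x))

/-- The Riemann tensor `R(u, v) w = ∇_u ∇_v w - ∇_v ∇_u w` of `g` at `x` (for constant vector
fields `u, v, w`, which commute). -/
noncomputable def riemann (g : E → E →L[ℝ] E →L[ℝ] ℝ) (x u v w : E) : E :=
  fderiv ℝ (fun y => christoffel g y v w) x u - fderiv ℝ (fun y => christoffel g y u w) x v
    + christoffel g x u (christoffel g x v w) - christoffel g x v (christoffel g x u w)

/-- The curvature tensor `R(u, v, w, z) = g(R(u, v) w, z)` of `g` at `x`. With this convention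
`R(u, v, v, u) > 0` for the round sphere. -/
noncomputable def curv (g : E → E →L[ℝ] E →L[ℝ] ℝ) (x u v w z : E) : ℝ :=
  g x (riemann g x u v w) z

/-- The sectional curvature `K(u, v) = R(u, v, v, u) / (|u|² |v|² - g(u, v)²)` of the plane spanned
by the linearly independent vectors `u, v`. -/
noncomputable def sect (g : E → E →L[ℝ] E →L[ℝ] ℝ) (x u v : E) : ℝ :=
  curv g x u v v u / (g x u u * g x v v - (g x u v) ^ 2)

end Run7.h232.Pinch
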