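import Mathlib

/-!
# Curvature, pinching and the curvature operator of a Riemannian manifold
-/

open scoped Manifold ContDiff
open Bundle

namespace Run7.h232.Pinch

section
variable {E : Type*} [NormedAddCommGroup E] [NormedSpace ℝ E]

/-! ### A metric in coordinates: `g y u v` is the product of the vectors `u, v` at the point `y`.
Vectors are extended to constant vector fields. -/

/-- The Christoffel symbols of the first kind: `g(∇_u v, w)` at `x`, by Koszul's formula
`2 g(∇_u v, w) = D_u (g(v, w)) + D_v (g(u, w)) - D_w (g(u, v))`. -/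
noncomputable def chrFirst (g : E → E → E → ℝ) (x u v w : E) : ℝ :=
  (fderiv ℝ (fun y => g y v w) x u + fderiv ℝ (fun y => g y u w) x v
    - fderiv ℝ (fun y => g y u v) x w) / 2

/-- The Levi-Civita covariant derivative `∇_u v` at `x`: the vector `c` such that
`g(c, w) = g(∇_u v, w)` for every `w`. -/
noncomputable def chr (g : E → E → E → ℝ) (x u v : E) : E :=
  Classical.epsilon fun c => ∀ w, g x c w = chrFirst g x u v w

/-- The Riemann tensor `R(u, v) w = ∇_u ∇_v w - ∇_v ∇_u w` at `x`, where
`∇_u ∇_v w = D_u (∇_v w) + ∇_u (the vector ∇_v w at x)`. -/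
noncomputable def riem (g : E → E → E → ℝ) (x u v w : E) : E :=
  fderiv ℝ (fun y => chr g y v w) x u - fderiv ℝ (fun y => chr g y u w) x v
    + chr g x u (chr g x v w) - chr g x v (chr g x u w)

/-- The curvature tensor `R(u, v, w, z) = g(R(u, v) w, z)`; with this convention
`R(u, v, v, u) > 0` for the round sphere. -/
noncomputable def curvTensor (g : E → E → E → ℝ) (x u v w z : E) : ℝ := g x (riem g x u v w) z

/-- The sectional curvature `K(u, v) = R(u, v, v, u) / (|u|² |v|² - g(u, v)²)` of the plane spanned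
by the linearly independent vectors `u, v`. -/
noncomputable def sectK (g : E → E → E → ℝ) (x u v : E) : ℝ :=
  curvTensor g x u v v u / (g x u u * g x v v - (g x u v) ^ 2)

end

section
variable (E : Type*) [NormedAddCommGroup E] [NormedSpace ℝ E] (M : Type*) [TopologicalSpace M]
  [ChartedSpace E M] [IsManifold 𝓘(ℝ, E) ∞ M]

/-- Smooth Riemannian metrics (Mathlib's notion) on the smooth manifold `M` without boundary,
modelled on the normed space `E`. -/
abbrev RMetric := ContMDiffRiemannianMetric 𝓘(ℝ, E) ∞ E (fun p : M => TangentSpace 𝓘(ℝ, E) p)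

end

variable {E : Type*} [NormedAddCommGroup E] [NormedSpace ℝ E] {M : Type*} [TopologicalSpace M]
  [ChartedSpace E M] [IsManifold 𝓘(ℝ, E) ∞ M]

/-- The metric `g` read in the preferred chart at `p`: at the point `y` of the chart, the
`g`-product of the images of `u, v` under the derivative at `y` of the inverse of the chart. -/
noncomputable def chartForm (g : RMetric E M) (p : M) (y u v : E) : ℝ :=
  g.inner ((extChartAt 𝓘(ℝ, E) p).symm y)
    (mfderiv 𝓘(ℝ, E) 𝓘(ℝ, E) (extChartAt 𝓘(ℝ, E) p).symm y u)
    (mfderiv 𝓘(ℝ, E) 𝓘(ℝ, E) (extChartAt 𝓘(ℝ, E) p).symm y v)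

/-- The curvature tensor `R(u, v, w, z)` of `g` at `p`, the tangent vectors at `p` being given by
their components in the preferred chart at `p`. -/
noncomputable def curvAt (g : RMetric E M) (p : M) (u v w z : E) : ℝ :=
  curvTensor (chartForm g p) (extChartAt 𝓘(ℝ, E) p p) u v w z

/-- The sectional curvature of the plane of `T_p M` spanned by `u, v`. -/
noncomputable def sectAt (g : RMetric E M) (p : M) (u v : E) : ℝ :=
  sectK (chartForm g p) (extChartAt 𝓘(ℝ, E) p p) u v

/-- `(M, g)` is pointwise `δ`-pinched: `K > 0`, and `K(σ) ≥ δ K(σ')` for every point `p` and all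
2-planes `σ, σ'` of `T_p M`. -/
def Pinched (g : RMetric E M) (δ : ℝ) : Prop :=
  ∀ p : M, (∀ u v, LinearIndependent ℝ ![u, v] → 0 < sectAt g p u v) ∧
    (∀ u v u' v', LinearIndependent ℝ ![u, v] → LinearIndependent ℝ ![u', v'] →
      δ * sectAt g p u' v' ≤ sectAt g p u v)

/-- The curvature operator of `(M, g)` is positive: for every point `p`, every basis `b` of `T_p M`
and every nonzero `ω = ∑ w i j • b i ∧ b j` in `Λ² T_p M` (`w` a nonzero skew-symmetric matrix),
`R*(ω, ω) = ∑ w i j * w k l * R(b i, b j, b l, b k)` is positive. -/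
def PositiveCurvOp (g : RMetric E M) : Prop :=
  ∀ (p : M) (b : Module.Basis (Fin (Module.finrank ℝ E)) ℝ E)
    (w : Fin (Module.finrank ℝ E) → Fin (Module.finrank ℝ E) → ℝ),
    (∀ i j, w i j = -w j i) → w ≠ 0 →
    0 < ∑ i, ∑ j, ∑ k, ∑ l, w i j * w k l * curvAt g p (b i) (b j) (b l) (b k)

/-- The set of `δ ∈ (0, 1]` such that every pointwise `δ`-pinched Riemannian `d`-manifold
(Hausdorff, second countable, modelled on any `d`-dimensional real normed space `E`) has positive
curvature operator. -/
def PinchSet (d : ℕ) : Set ℝ :=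
  {δ | 0 < δ ∧ δ ≤ 1 ∧ ∀ (E : Type) [NormedAddCommGroup E] [NormedSpace ℝ E]
    [FiniteDimensional ℝ E] (M : Type) [TopologicalSpace M] [ChartedSpace E M]
    [IsManifold 𝓘(ℝ, E) ∞ M] [T2Space M] [SecondCountableTopology M] (g : RMetric E M),
    Module.finrank ℝ E = d → Pinched g δ → PositiveCurvOp g}

end Run7.h232.Pinch
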