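import Pool.Agent.Run7.h232.Pinch.Model

/-!
# The example is pinched near the origin
-/

set_option linter.unusedSimpArgs false
set_option maxSynthPendingDepth 3
set_option linter.unusedSectionVars false
set_option linter.deprecated false

open Finset Module Filter Topology

namespace Run7.h232.Pinch

variable {V : Type*} [NormedAddCommGroup V] [InnerProductSpace ℝ V] [FiniteDimensional ℝ V]
  {J : V →L[ℝ] V} {c : ℝ}

/-- the symmetrised second derivative -/
noncomputable def exBB (J : V →L[ℝ] V) (c : ℝ) : V →L[ℝ] V →L[ℝ] (V →L[ℝ] V →L[ℝ] ℝ) :=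
  exB J c + (exB J c).flip

theorem kos_exG (y u v : V) : kos (exG J c) y u v =
    (1 / 2 : ℝ) • (exBB J c y u v + exBB J c y v u - ((exBB J c y).flip u).flip v) := by
  ext w
  rw [kos_apply (hasFDerivAt_exG J c y).differentiableAt, fderiv_exG]
  simp only [ContinuousLinearMap.smul_apply, ContinuousLinearMap.sub_apply,
    ContinuousLinearMap.add_apply, smul_eq_mul, ContinuousLinearMap.flip_apply, exBB]

theorem continuous_kos :
    Continuous (fun p : V × V × V => kos (exG J c) p.1 p.2.1 p.2.2) := by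
  simp only [kos_exG]
  have hB : Continuous (fun p : V × V × V => exBB J c p.1) :=
    (exBB J c).continuous.comp continuous_fst
  have h1 : Continuous (fun p : V × V × V => p.2.1) := continuous_fst.comp continuous_snd
  have h2 : Continuous (fun p : V × V × V => p.2.2) := continuous_snd.comp continuous_snd
  have hF : Continuous (fun p : V × V × V => (exBB J c p.1).flip) :=
    (ContinuousLinearMap.flipₗᵢ ℝ V V (V →L[ℝ] ℝ)).continuous.comp hB
  have hF2 : Continuous (fun p : V × V × V => ((exBB J c p.1).flip p.2.1).flip) :=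
    (ContinuousLinearMap.flipₗᵢ ℝ V V ℝ).continuous.comp (hF.clm_apply h1)
  exact ((((hB.clm_apply h1).clm_apply h2).add ((hB.clm_apply h2).clm_apply h1)).sub
    (hF2.clm_apply h2)).const_smul (1 / 2 : ℝ)

theorem continuousAt_christoffel (hc : 0 ≤ c) (u v : V) :
    ContinuousAt (fun p : V × V × V => christoffel (exG J c) p.1 p.2.1 p.2.2) (0, u, v) := by
  have : CompleteSpace V := FiniteDimensional.complete ℝ V
  have hm : MetricAt (exG J c) (0 : V) := metricAt_exG hc (by simp)
  have h2 := hm.inv.contDiffAt_map_inverse (n := 2)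
  have h3 : ContDiffAt ℝ 2 (fun y => (exG J c y).inverse) (0 : V) := h2.comp 0 hm.smooth
  have h4 : ContinuousAt (fun p : V × V × V => (exG J c p.1).inverse) (0, u, v) :=
    ContinuousAt.comp (f := Prod.fst) (g := fun y => (exG J c y).inverse) h3.continuousAt
      continuousAt_fst
  exact h4.clm_apply continuous_kos.continuousAt

theorem small_ev (c : ℝ) : ∀ᶠ x : V in 𝓝 0, c / 3 * ‖x‖ ^ 2 < 1 := by
  have h : Continuous (fun x : V => c / 3 * ‖x‖ ^ 2) := by fun_prop
  have := h.continuousAt (x := (0 : V))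
  refine this.eventually_lt_const ?_
  simp

theorem continuousAt_curv (hc : 0 ≤ c) (u v : V) :
    ContinuousAt (fun p : V × V × V => curv (exG J c) p.1 p.2.1 p.2.2 p.2.2 p.2.1) (0, u, v) := by
  have h1 : ContinuousAt (fun p : V × V × V => p.2.1) (0, u, v) :=
    (continuous_fst.comp continuous_snd).continuousAt
  have h2 : ContinuousAt (fun p : V × V × V => p.2.2) (0, u, v) :=
    (continuous_snd.comp continuous_snd).continuousAt
  have hg : ContinuousAt (fun p : V × V × V => exG J c p.1) (0, u, v) :=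
    ((contDiff_exG J c).continuous.comp continuous_fst).continuousAt
  have sw : ∀ f : V × V × V → V × V, ContinuousAt f (0, u, v) →
      ContinuousAt (fun p : V × V × V => (p.1, f p)) (0, u, v) :=
    fun f hf => continuousAt_fst.prodMk hf
  have hΓ : ∀ f : V × V × V → V × V, ContinuousAt f (0, u, v) →
      ContinuousAt (fun p : V × V × V => christoffel (exG J c) p.1 (f p).1 (f p).2) (0, u, v) := by
    intro f hf
    exact ContinuousAt.comp (f := fun p : V × V × V => (p.1, f p))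
      (g := fun p : V × V × V => christoffel (exG J c) p.1 p.2.1 p.2.2)
      (continuousAt_christoffel (J := J) hc (f (0, u, v)).1 (f (0, u, v)).2) (sw f hf)
  have hB : ∀ a b e f : V × V × V → V, ContinuousAt a (0, u, v) → ContinuousAt b (0, u, v) →
      ContinuousAt e (0, u, v) → ContinuousAt f (0, u, v) →
      ContinuousAt (fun p => exBB J c (a p) (b p) (e p) (f p)) (0, u, v) := by
    intro a b e f ha hb he hf
    exact ((((continuousAt_const (y := exBB J c)).clm_apply ha).clm_apply hb).clm_apply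
      he).clm_apply hf
  have hmain : ContinuousAt (fun p : V × V × V =>
      1 / 2 * (exBB J c p.2.1 p.2.2 p.2.2 p.2.1 - exBB J c p.2.1 p.2.1 p.2.2 p.2.2
        - exBB J c p.2.2 p.2.2 p.2.1 p.2.1 + exBB J c p.2.2 p.2.1 p.2.1 p.2.2)
      - exG J c p.1 (christoffel (exG J c) p.1 p.2.1 p.2.1)
        (christoffel (exG J c) p.1 p.2.2 p.2.2)
      + exG J c p.1 (christoffel (exG J c) p.1 p.2.2 p.2.1)
        (christoffel (exG J c) p.1 p.2.1 p.2.2)) (0, u, v) := by
    refine ContinuousAt.add (ContinuousAt.sub (continuousAt_const.mul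
      (((hB _ _ _ _ h1 h2 h2 h1).sub (hB _ _ _ _ h1 h1 h2 h2)).sub
      (hB _ _ _ _ h2 h2 h1 h1) |>.add (hB _ _ _ _ h2 h1 h1 h2))) ?_) ?_
    · exact (hg.clm_apply (hΓ (fun p => (p.2.1, p.2.1)) (h1.prodMk h1))).clm_apply
        (hΓ (fun p => (p.2.2, p.2.2)) (h2.prodMk h2))
    · exact (hg.clm_apply (hΓ (fun p => (p.2.2, p.2.1)) (h2.prodMk h1))).clm_apply
        (hΓ (fun p => (p.2.1, p.2.2)) (h1.prodMk h2))
  refine hmain.congr ?_
  have hs := (small_ev (V := V) c)
  have hs2 : ∀ᶠ p : V × V × V in 𝓝 (0, u, v), c / 3 * ‖p.1‖ ^ 2 < 1 :=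
    (continuousAt_fst (p := ((0 : V), (u, v)))).eventually hs
  filter_upwards [hs2] with p hp
  have hm : MetricAt (exG J c) p.1 := metricAt_exG hc hp
  rw [curv_eq hm, fderiv2_exG]
  rfl

/-- the orthonormal pairs -/
def onp (V : Type*) [NormedAddCommGroup V] [InnerProductSpace ℝ V] : Set (V × V) :=
  {p | ‖p.1‖ = 1 ∧ ‖p.2‖ = 1 ∧ inner ℝ p.1 p.2 = 0}

theorem isCompact_onp : IsCompact (onp V) := by
  have : ProperSpace V := FiniteDimensional.proper_real V
  refine Metric.isCompact_of_isClosed_isBounded ?_ ?_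
  · refine IsClosed.inter (isClosed_eq ?_ ?_) (IsClosed.inter (isClosed_eq ?_ ?_)
      (isClosed_eq ?_ ?_))
    · exact continuous_fst.norm
    · exact continuous_const
    · exact continuous_snd.norm
    · exact continuous_const
    · exact continuous_fst.inner continuous_snd
    · exact continuous_const
  · refine (Metric.isBounded_closedBall (x := (0 : V × V)) (r := 1)).subset ?_
    rintro ⟨a, b⟩ ⟨h1, h2, -⟩
    simp only [Metric.mem_closedBall, dist_zero_right, Prod.norm_def]
    simp only at h1 h2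
    rw [h1, h2]
    simp

theorem J_bound (hn : ∀ x, ‖J x‖ ≤ ‖x‖)
    {u v : V} (hu : ‖u‖ = 1) (hv : ‖v‖ = 1) : inner ℝ (J u) v ^ 2 ≤ 1 := by
  have h1 : |inner ℝ (J u) v| ≤ ‖J u‖ * ‖v‖ := abs_real_inner_le_norm _ _
  have h2 : ‖J u‖ * ‖v‖ ≤ 1 := by
    rw [hv, mul_one]; exact (hn u).trans hu.le
  have h3 : |inner ℝ (J u) v| ≤ 1 := h1.trans h2
  rw [← sq_abs]
  nlinarith [abs_nonneg (inner ℝ (J u) v)]

theorem near_onp (hc : 0 ≤ c) (hJ : ∀ x y, inner ℝ (J x) y = -inner ℝ x (J y))
    (hn : ∀ x, ‖J x‖ ≤ ‖x‖) {lo hi : ℝ} (hlo : lo < c - 3) (hhi : c < hi) :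
    ∀ᶠ x : V in 𝓝 0, ∀ p ∈ onp V,
      lo * (exG J c x p.1 p.1 * exG J c x p.2 p.2 - exG J c x p.1 p.2 ^ 2) <
        curv (exG J c) x p.1 p.2 p.2 p.1 ∧
      curv (exG J c) x p.1 p.2 p.2 p.1 <
        hi * (exG J c x p.1 p.1 * exG J c x p.2 p.2 - exG J c x p.1 p.2 ^ 2) := by
  refine IsCompact.eventually_forall_of_forall_eventually isCompact_onp ?_
  rintro ⟨u, v⟩ ⟨hu, hv, huv⟩
  simp only at hu hv huv
  have hF := continuousAt_curv (J := J) hc u v
  have h1 : ContinuousAt (fun p : V × V × V => p.2.1) (0, u, v) :=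
    (continuous_fst.comp continuous_snd).continuousAt
  have h2 : ContinuousAt (fun p : V × V × V => p.2.2) (0, u, v) :=
    (continuous_snd.comp continuous_snd).continuousAt
  have hg : ContinuousAt (fun p : V × V × V => exG J c p.1) (0, u, v) :=
    ((contDiff_exG J c).continuous.comp continuous_fst).continuousAt
  have hG : ContinuousAt (fun p : V × V × V => exG J c p.1 p.2.1 p.2.1 * exG J c p.1 p.2.2 p.2.2
      - exG J c p.1 p.2.1 p.2.2 ^ 2) (0, u, v) :=
    (((hg.clm_apply h1).clm_apply h1).mul ((hg.clm_apply h2).clm_apply h2)).sub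
      (((hg.clm_apply h1).clm_apply h2).pow 2)
  have hval : exG J c 0 u u * exG J c 0 v v - exG J c 0 u v ^ 2 = 1 := by
    simp only [exG_apply, map_zero, inner_zero_left, real_inner_self_eq_norm_sq, hu, hv, huv]
    norm_num
  have hcv : curv (exG J c) 0 u v v u = c - 3 * inner ℝ (J u) v ^ 2 := by
    rw [curv_exG_zero hc hJ]
    have e1 : inner ℝ (J v) u = -inner ℝ (J u) v := by rw [hJ v u, real_inner_comm]
    have e2 : inner ℝ (J v) v = (0 : ℝ) := by
      have h7 := hJ v v
      have h8 := real_inner_comm v (J v)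
      linarith
    rw [e1, e2, real_inner_comm u v, huv, real_inner_self_eq_norm_sq, real_inner_self_eq_norm_sq,
      hu, hv]
    ring
  have hb := J_bound hn hu hv
  have hb0 := sq_nonneg (inner ℝ (J u) v)
  have e1 : ∀ᶠ p : V × V × V in 𝓝 (0, u, v),
      lo * (exG J c p.1 p.2.1 p.2.1 * exG J c p.1 p.2.2 p.2.2 - exG J c p.1 p.2.1 p.2.2 ^ 2) <
        curv (exG J c) p.1 p.2.1 p.2.2 p.2.2 p.2.1 := by
    refine Filter.Tendsto.eventually_lt (hG.const_mul lo) hF ?_
    simp only
    rw [hval, hcv]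
    linarith
  have e2 : ∀ᶠ p : V × V × V in 𝓝 (0, u, v),
      curv (exG J c) p.1 p.2.1 p.2.2 p.2.2 p.2.1 <
      hi * (exG J c p.1 p.2.1 p.2.1 * exG J c p.1 p.2.2 p.2.2 - exG J c p.1 p.2.1 p.2.2 ^ 2) := by
    refine Filter.Tendsto.eventually_lt hF (hG.const_mul hi) ?_
    simp only
    rw [hval, hcv]
    linarith
  filter_upwards [e1, e2] with p h1 h2
  exact ⟨h1, h2⟩

/-- Gram-Schmidt for a pair -/
theorem gs {u v : V} (h : LinearIndependent ℝ ![u, v]) : ∃ p ∈ onp V, ∃ a b s : ℝ,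
    a ≠ 0 ∧ s ≠ 0 ∧ u = a • p.1 ∧ v = b • p.1 + s • p.2 := by
  have hu : u ≠ 0 := h.ne_zero 0
  have hun : ‖u‖ ≠ 0 := norm_ne_zero_iff.mpr hu
  set e := ‖u‖⁻¹ • u with he
  have he1 : ‖e‖ = 1 := by rw [he, norm_smul, norm_inv, norm_norm, inv_mul_cancel₀ hun]
  have hue : u = ‖u‖ • e := by rw [he, smul_smul, mul_inv_cancel₀ hun, one_smul]
  set f := v - inner ℝ e v • e with hf
  have hf0 : f ≠ 0 := by
    intro h0
    rw [LinearIndependent.pair_iff] at h
    have h2 : (-(inner ℝ e v * ‖u‖⁻¹)) • u + (1 : ℝ) • v = 0 := by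
      rw [hf, he, smul_smul, sub_eq_zero] at h0
      rw [neg_smul, one_smul]
      nth_rewrite 2 [h0]
      rw [he]
      simp
    exact one_ne_zero (h _ _ h2).2
  have hfn : ‖f‖ ≠ 0 := norm_ne_zero_iff.mpr hf0
  refine ⟨(e, ‖f‖⁻¹ • f), ⟨he1, ?_, ?_⟩, ‖u‖, inner ℝ e v, ‖f‖, hun, hfn, hue, ?_⟩
  · simp only
    rw [norm_smul, norm_inv, norm_norm, inv_mul_cancel₀ hfn]
  · simp only
    rw [inner_smul_right, hf, inner_sub_right, inner_smul_right, real_inner_self_eq_norm_sq, he1]
    ring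
  · have h9 : ‖f‖ • (‖f‖⁻¹ • f) = f := by rw [smul_smul, mul_inv_cancel₀ hfn, one_smul]
    change v = inner ℝ e v • e + ‖f‖ • (‖f‖⁻¹ • f)
    rw [h9, hf]
    abel

/-- the change of basis formula for the numerator of the sectional curvature -/
theorem curvForm_gs {R : V → V → V → V → ℝ} (h : CurvForm R) (e f : V) (a b s : ℝ) :
    R (a • e) (b • e + s • f) (b • e + s • f) (a • e) = (a * s) ^ 2 * R e f f e := by
  rw [h.smul₁, h.smul₄, h.add₂, h.smul₂, h.smul₂, h.self₁₂, h.add₃, h.smul₃, h.smul₃, h.self₃₄]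
  ring

theorem pinched_near (hc : 0 ≤ c) (hJ : ∀ x y, inner ℝ (J x) y = -inner ℝ x (J y))
    (hn : ∀ x, ‖J x‖ ≤ ‖x‖) {δ : ℝ} (hδ0 : 0 < δ) (hδ : δ * c < c - 3) :
    ∀ᶠ x : V in 𝓝 0, PinchedAt (exG J c) x δ := by
  set η := (c - 3 - δ * c) / (1 + δ) with hη
  have h1δ : (0 : ℝ) < 1 + δ := by linarith
  have hη0 : 0 < η := div_pos (by linarith) h1δ
  have hη1 : η * (1 + δ) = c - 3 - δ * c := by rw [hη]; field_simp
  have hlohi : δ * (c + η) = c - 3 - η := by linarith
  have hlo0 : 0 < c - 3 - η := by rw [← hlohi]; positivity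
  filter_upwards [near_onp hc hJ hn (lo := c - 3 - η) (hi := c + η) (by linarith) (by linarith),
    small_ev (V := V) c] with x hx hx2
  have hm : MetricAt (exG J c) x := metricAt_exG hc hx2
  have hcf := curvForm hm
  have hs := hm.symm.self_of_nhds
  have key : ∀ u v, LinearIndependent ℝ ![u, v] →
      c - 3 - η ≤ sect (exG J c) x u v ∧ sect (exG J c) x u v ≤ c + η := by
    intro u v huv
    have hg := gram_pos hs hm.pos huv
    obtain ⟨p, hp, a, b, s, ha, hs0, hu, hv⟩ := gs huv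
    obtain ⟨k1, k2⟩ := hx p hp
    have e1 : curv (exG J c) x u v v u = (a * s) ^ 2 * curv (exG J c) x p.1 p.2 p.2 p.1 := by
      rw [hu, hv, curvForm_gs hcf]
    have e2 : exG J c x u u * exG J c x v v - exG J c x u v ^ 2 = (a * s) ^ 2 *
        (exG J c x p.1 p.1 * exG J c x p.2 p.2 - exG J c x p.1 p.2 ^ 2) := by
      rw [hu, hv]
      simp only [map_smul, map_add, ContinuousLinearMap.smul_apply, ContinuousLinearMap.add_apply,
        smul_eq_mul]
      rw [hs p.2 p.1]
      ring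
    have has : 0 < (a * s) ^ 2 := by positivity
    rw [sect, le_div_iff₀ hg, div_le_iff₀ hg, e1, e2]
    constructor
    · nlinarith
    · nlinarith
  refine ⟨fun u v huv => lt_of_lt_of_le hlo0 (key u v huv).1, ?_⟩
  intro u v u' v' huv huv'
  calc δ * sect (exG J c) x u' v' ≤ δ * (c + η) :=
        mul_le_mul_of_nonneg_left (key u' v' huv').2 hδ0.le
    _ = c - 3 - η := hlohi
    _ ≤ _ := (key u v huv).1

end Run7.h232.Pinch
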