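import Pool.Agent.Run7.h232.Pinch.Mfd
import Pool.Agent.Run7.h232.Pinch.Near

/-!
# Metrics on subsets of a normed space that are open
-/

set_option linter.unusedSimpArgs false
set_option maxSynthPendingDepth 3
set_option linter.unusedSectionVars false
set_option linter.deprecated false

open Finset Module Filter Topology
open scoped Manifold ContDiff
open Bundle TopologicalSpace

namespace Run7.h232.Pinch

variable {E : Type*} [NormedAddCommGroup E] [NormedSpace ℝ E] [FiniteDimensional ℝ E]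
  (U : Opens E)

theorem chart_eq (p q : U) : chartAt E p = chartAt E q := rfl

theorem achart_eq (p q : U) : achart E p = achart E q := Subtype.ext (chart_eq U p q)

theorem chart_source (p : U) : (chartAt E p).source = Set.univ := by
  rw [Opens.chartAt_eq, chartAt_self_eq]
  simp

theorem symmL_U (p q : U) :
    (trivializationAt E (TangentSpace 𝓘(ℝ, E)) p).symmL ℝ q = (1 : E →L[ℝ] E) := by
  have hq : q ∈ (chartAt E p).source := by
    rw [chart_source]; exact Set.mem_univ _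
  rw [TangentBundle.symmL_trivializationAt_eq_core hq]
  ext1 v
  rw [achart_eq U p q]
  exact (tangentBundleCore 𝓘(ℝ, E) U).coordChange_self _ _ (mem_chart_source _ q) v

/-- a positive definite form on a finite-dimensional space is bounded below -/
theorem exists_lower {E : Type*} [NormedAddCommGroup E] [NormedSpace ℝ E] [FiniteDimensional ℝ E]
    {B : E →L[ℝ] E →L[ℝ] ℝ} (hp : ∀ u, u ≠ 0 → 0 < B u u) :
    ∃ k : ℝ, 0 < k ∧ ∀ v, k * ‖v‖ ^ 2 ≤ B v v := by
  have : ProperSpace E := FiniteDimensional.proper_real E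
  have hcont : Continuous (fun v : E => B v v) := B.continuous.clm_apply continuous_id
  rcases (Metric.sphere (0 : E) 1).eq_empty_or_nonempty with h | h
  · refine ⟨1, one_pos, fun v => ?_⟩
    have hv : v = 0 := by
      by_contra hv
      have hn : ‖v‖ ≠ 0 := norm_ne_zero_iff.mpr hv
      have : ‖v‖⁻¹ • v ∈ Metric.sphere (0 : E) 1 := by
        rw [mem_sphere_zero_iff_norm, norm_smul, norm_inv, norm_norm, inv_mul_cancel₀ hn]
      rw [h] at this
      exact this
    rw [hv]; simp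
  · obtain ⟨v₀, hv₀, hmin⟩ := (isCompact_sphere (0 : E) 1).exists_isMinOn h hcont.continuousOn
    have hv₀' : v₀ ≠ 0 := by
      rintro rfl
      rw [mem_sphere_zero_iff_norm] at hv₀
      simp at hv₀
    refine ⟨B v₀ v₀, hp _ hv₀', fun v => ?_⟩
    by_cases hv : v = 0
    · rw [hv]; simp
    have hn : ‖v‖ ≠ 0 := norm_ne_zero_iff.mpr hv
    have h1 : ‖v‖⁻¹ • v ∈ Metric.sphere (0 : E) 1 := by
      rw [mem_sphere_zero_iff_norm, norm_smul, norm_inv, norm_norm, inv_mul_cancel₀ hn]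
    have h2 : B v₀ v₀ ≤ B (‖v‖⁻¹ • v) (‖v‖⁻¹ • v) := hmin h1
    simp only [map_smul, ContinuousLinearMap.smul_apply, smul_eq_mul] at h2
    have h3 : 0 ≤ ‖v‖ ^ 2 := by positivity
    calc B v₀ v₀ * ‖v‖ ^ 2 ≤ (‖v‖⁻¹ * (‖v‖⁻¹ * B v v)) * ‖v‖ ^ 2 :=
          mul_le_mul_of_nonneg_right h2 h3
      _ = B v v := by field_simp

theorem vonN {E : Type*} [NormedAddCommGroup E] [NormedSpace ℝ E] [FiniteDimensional ℝ E]
    {B : E →L[ℝ] E →L[ℝ] ℝ} (hp : ∀ u, u ≠ 0 → 0 < B u u) :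
    Bornology.IsVonNBounded ℝ {v : E | B v v < 1} := by
  obtain ⟨k, hk, h⟩ := exists_lower hp
  refine (NormedSpace.isVonNBounded_closedBall ℝ E (1 / k + 1)).subset ?_
  intro v hv
  rw [mem_closedBall_zero_iff]
  have h1 : k * ‖v‖ ^ 2 < 1 := (h v).trans_lt hv
  have h2 : ‖v‖ ^ 2 < 1 / k := by rw [lt_div_iff₀ hk]; linarith
  have h3 : 0 < 1 / k := by positivity
  nlinarith [norm_nonneg v]

/-- a family of bilinear forms on a subset that is open, as a section -/
noncomputable def sec (G : E → E →L[ℝ] E →L[ℝ] ℝ) (q : U) :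
    TangentSpace 𝓘(ℝ, E) q →L[ℝ] TangentSpace 𝓘(ℝ, E) q →L[ℝ] ℝ := G q.1

theorem sec_coord (G : E → E →L[ℝ] E →L[ℝ] ℝ) (x q : U) :
    (trivializationAt (E →L[ℝ] E →L[ℝ] ℝ)
      (fun b : U => TangentSpace 𝓘(ℝ, E) b →L[ℝ] TangentSpace 𝓘(ℝ, E) b →L[ℝ] ℝ) x
      ⟨q, sec U G q⟩).2 = G q.1 := by
  have hq : q ∈ (trivializationAt E (TangentSpace 𝓘(ℝ, E)) x).baseSet := by
    rw [TangentBundle.trivializationAt_baseSet, chart_source]
    exact Set.mem_univ _
  ext v w
  simp only [hom_trivializationAt_apply, ContinuousLinearMap.inCoordinates]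
  rw [ContinuousLinearMap.comp_apply, ContinuousLinearMap.comp_apply, symmL_U]
  rw [Trivialization.continuousLinearMapAt_apply, Trivialization.linearMapAt_apply]
  rw [if_pos (by simpa using hq)]
  rw [hom_trivializationAt_apply]
  simp only [ContinuousLinearMap.inCoordinates]
  rw [ContinuousLinearMap.comp_apply, ContinuousLinearMap.comp_apply, symmL_U]
  have h1 : (trivializationAt ℝ (Bundle.Trivial U ℝ) x).continuousLinearMapAt ℝ q =
      ContinuousLinearMap.id ℝ ℝ := by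
    exact Bundle.Trivial.continuousLinearMapAt_trivialization ℝ U ℝ q
  exact congrArg (fun L : ℝ →L[ℝ] ℝ => L (G q.1 v w)) h1

theorem contMDiff_sec {G : E → E →L[ℝ] E →L[ℝ] ℝ} (hG : ContDiff ℝ ∞ G) :
    ContMDiff 𝓘(ℝ, E) (𝓘(ℝ, E).prod 𝓘(ℝ, E →L[ℝ] E →L[ℝ] ℝ)) ∞ (fun q : U =>
      TotalSpace.mk' (E →L[ℝ] E →L[ℝ] ℝ)
        (E := fun b : U => TangentSpace 𝓘(ℝ, E) b →L[ℝ] TangentSpace 𝓘(ℝ, E) b →L[ℝ] ℝ) q
        (sec U G q)) := by
  intro x
  rw [contMDiffAt_section]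
  have h1 : ContMDiffAt 𝓘(ℝ, E) 𝓘(ℝ, E →L[ℝ] E →L[ℝ] ℝ) ∞ (fun q : U => G q.1) x := by
    have h2 : ContMDiffAt 𝓘(ℝ, E) 𝓘(ℝ, E) ∞ (fun q : U => q.1) x := contMDiff_subtype_val x
    exact (hG.contMDiff.contMDiffAt).comp x h2
  exact h1.congr_of_eventuallyEq (Eventually.of_forall fun q => sec_coord U G x q)

/-- a metric on a subset that is open -/
noncomputable def metricOn (G : E → E →L[ℝ] E →L[ℝ] ℝ)
    (hG : ContDiff ℝ ∞ G) (hs : ∀ q : U, ∀ u v, G q.1 u v = G q.1 v u)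
    (hp : ∀ q : U, ∀ u, u ≠ 0 → 0 < G q.1 u u) : RMetric E U where
  inner q := sec U G q
  symm q v w := hs q v w
  pos q v hv := hp q v hv
  isVonNBounded q := by
    change Bornology.IsVonNBounded ℝ {v : E | G q.1 v v < 1}
    exact vonN (hp q)
  contMDiff := contMDiff_sec U hG

theorem extChart_coe (p q : U) : extChartAt 𝓘(ℝ, E) p q = q.1 := by
  rw [extChartAt_coe]
  rfl

theorem chartMetric_metricOn {G : E → E →L[ℝ] E →L[ℝ] ℝ}
    (hG : ContDiff ℝ ∞ G) (hs : ∀ q : U, ∀ u v, G q.1 u v = G q.1 v u)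
    (hp : ∀ q : U, ∀ u, u ≠ 0 → 0 < G q.1 u u) (p : U) :
    chartMetric (metricOn U G hG hs hp) p =ᶠ[𝓝 (extChartAt 𝓘(ℝ, E) p p)] G := by
  filter_upwards [extChartAt_target_mem_nhds (I := 𝓘(ℝ, E)) p] with y hy
  ext u v
  rw [chartMetric_apply]
  set q := (extChartAt 𝓘(ℝ, E) p).symm y with hq
  have hy2 : extChartAt 𝓘(ℝ, E) p q = y := (extChartAt 𝓘(ℝ, E) p).right_inv hy
  have hq2 : q ∈ (chartAt E p).source := by
    rw [chart_source]; exact Set.mem_univ _
  have h1 := symmL_eq p q hq2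
  rw [hy2, symmL_U] at h1
  have h2 : q.1 = y := by rw [← hy2, extChart_coe]
  rw [← h1]
  change G q.1 u v = G y u v
  rw [h2]

theorem christoffel_congr {E : Type*} [NormedAddCommGroup E] [NormedSpace ℝ E]
    {g g' : E → E →L[ℝ] E →L[ℝ] ℝ} {x : E} (h : g =ᶠ[𝓝 x] g') (u v : E) :
    christoffel g x u v = christoffel g' x u v := by
  have h1 : (fun y => g y u v) =ᶠ[𝓝 x] (fun y => g' y u v) := by
    filter_upwards [h] with y hy
    rw [hy]
  rw [christoffel, christoffel, h.self_of_nhds, h.fderiv_eq, h1.fderiv_eq]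

theorem curv_congr {E : Type*} [NormedAddCommGroup E] [NormedSpace ℝ E]
    {g g' : E → E →L[ℝ] E →L[ℝ] ℝ} {x : E} (h : g =ᶠ[𝓝 x] g') (u v w z : E) :
    curv g x u v w z = curv g' x u v w z := by
  have h1 : ∀ a b, (fun y => christoffel g y a b) =ᶠ[𝓝 x] (fun y => christoffel g' y a b) := by
    intro a b
    filter_upwards [eventually_eventuallyEq_nhds.2 h] with y hy
    exact christoffel_congr hy a b
  rw [curv, curv, riemann, riemann, h.self_of_nhds]
  simp only [(h1 _ _).fderiv_eq, christoffel_congr h]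

theorem sect_congr {E : Type*} [NormedAddCommGroup E] [NormedSpace ℝ E]
    {g g' : E → E →L[ℝ] E →L[ℝ] ℝ} {x : E} (h : g =ᶠ[𝓝 x] g') (u v : E) :
    sect g x u v = sect g' x u v := by
  rw [sect, sect, curv_congr h, h.self_of_nhds]

end Run7.h232.Pinch
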