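import Pool.Agent.Run7.h232.Pinch.Upper

/-!
# The example: the metric `g = ⟨u,v⟩ - (1/3)(c(|x|²⟨u,v⟩ - ⟨x,u⟩⟨x,v⟩) - 3⟨Jx,u⟩⟨Jx,v⟩)`
-/

set_option linter.unusedSimpArgs false
set_option maxSynthPendingDepth 3
set_option linter.unusedSectionVars false
set_option linter.deprecated false

open Finset Module Filter Topology

namespace Run7.h232.Pinch

variable {V : Type*} [NormedAddCommGroup V] [InnerProductSpace ℝ V] (J : V →L[ℝ] V) (c : ℝ)

/-- the inner product as a bilinear map -/
noncomputable def ip : V →L[ℝ] V →L[ℝ] ℝ := innerSL ℝ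

@[simp] theorem ip_apply (a b : V) : ip a b = inner ℝ a b := rfl

/-- the quadratic part -/
noncomputable def exB : V →L[ℝ] V →L[ℝ] (V →L[ℝ] V →L[ℝ] ℝ) :=
  (-(c / 3)) • ((ContinuousLinearMap.compL ℝ V ℝ (V →L[ℝ] V →L[ℝ] ℝ)
      (ContinuousLinearMap.toSpanSingleton ℝ (ip (V := V)))).comp (ip (V := V)))
  + (c / 3) • ((ContinuousLinearMap.smulRightL ℝ V (V →L[ℝ] ℝ)).bilinearComp
      (ip (V := V)) (ip (V := V)))
  + (ContinuousLinearMap.smulRightL ℝ V (V →L[ℝ] ℝ)).bilinearComp
      ((ip (V := V)).comp J) ((ip (V := V)).comp J)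

theorem exB_apply (a b u v : V) : exB J c a b u v =
    -(c / 3) * (inner ℝ a b * inner ℝ u v) + c / 3 * (inner ℝ a u * inner ℝ b v)
      + inner ℝ (J a) u * inner ℝ (J b) v := by
  simp [exB]

/-- the metric -/
noncomputable def exG (x : V) : V →L[ℝ] V →L[ℝ] ℝ := ip (V := V) + exB J c x x

theorem exG_apply (x u v : V) : exG J c x u v = inner ℝ u v +
    (-(c / 3) * (inner ℝ x x * inner ℝ u v) + c / 3 * (inner ℝ x u * inner ℝ x v)
      + inner ℝ (J x) u * inner ℝ (J x) v) := by
  rw [exG, ContinuousLinearMap.add_apply, ContinuousLinearMap.add_apply, exB_apply]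
  rfl

theorem hasFDerivAt_exG (x : V) :
    HasFDerivAt (exG J c) ((exB J c + (exB J c).flip) x) x := by
  have h1 : HasFDerivAt (fun x => exB J c x x) (exB J c x + (exB J c).flip x) x := by
    have h2 := ((exB J c).hasFDerivAt (x := x)).clm_apply (hasFDerivAt_id x)
    refine HasFDerivAt.congr_fderiv h2 ?_
    ext a u v
    simp
  exact h1.const_add _

theorem fderiv_exG : fderiv ℝ (exG J c) = ⇑(exB J c + (exB J c).flip) := by
  funext x
  exact (hasFDerivAt_exG J c x).fderiv

theorem fderiv2_exG (x : V) : fderiv ℝ (fderiv ℝ (exG J c)) x = exB J c + (exB J c).flip := by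
  rw [fderiv_exG]
  exact (exB J c + (exB J c).flip).fderiv

theorem contDiff_exG : ContDiff ℝ ⊤ (exG J c) := by
  unfold exG
  exact contDiff_const.add ((exB J c).contDiff.clm_apply contDiff_id)

variable {J c}

theorem exG_symm (x u v : V) : exG J c x u v = exG J c x v u := by
  rw [exG_apply, exG_apply, real_inner_comm u v]; ring

theorem exG_pos (hc : 0 ≤ c) {x : V} (hx : c / 3 * ‖x‖ ^ 2 < 1) (u : V) (hu : u ≠ 0) :
    0 < exG J c x u u := by
  rw [exG_apply, real_inner_self_eq_norm_sq, real_inner_self_eq_norm_sq]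
  have h1 : 0 < ‖u‖ ^ 2 := by positivity
  have h2 : 0 ≤ c / 3 * (inner ℝ x u * inner ℝ x u) := by
    have := mul_self_nonneg (inner ℝ x u); positivity
  have h3 := mul_self_nonneg (inner ℝ (J x) u)
  nlinarith

theorem metricAt_exG [FiniteDimensional ℝ V] (hc : 0 ≤ c) {x : V} (hx : c / 3 * ‖x‖ ^ 2 < 1) :
    MetricAt (exG J c) x where
  smooth := (contDiff_exG J c).contDiffAt.of_le le_top
  symm := Eventually.of_forall fun y u v => exG_symm y u v
  pos := exG_pos hc hx

/-- the curvature at the origin -/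
theorem curv_exG_zero [FiniteDimensional ℝ V] (hc : 0 ≤ c)
    (hJ : ∀ x y, inner ℝ (J x) y = -inner ℝ x (J y)) (u v w z : V) :
    curv (exG J c) 0 u v w z = c * (inner ℝ v w * inner ℝ u z - inner ℝ u w * inner ℝ v z)
      - (inner ℝ (J v) w * inner ℝ (J u) z - inner ℝ (J u) w * inner ℝ (J v) z
        - 2 * (inner ℝ (J u) v * inner ℝ (J w) z)) := by
  have hm : MetricAt (exG J c) (0 : V) := metricAt_exG hc (by simp)
  have hd : DifferentiableAt ℝ (exG J c) (0 : V) := hm.smooth.differentiableAt (by norm_num)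
  have hc0 : ∀ a b : V, christoffel (exG J c) 0 a b = 0 := by
    intro a b
    rw [christoffel_eq]
    have : kos (exG J c) 0 a b = 0 := by
      ext z
      rw [kos_apply hd, fderiv_exG]
      simp
    rw [this, map_zero]
  rw [curv_eq hm, hc0, hc0, fderiv2_exG]
  simp only [ContinuousLinearMap.add_apply, ContinuousLinearMap.flip_apply, exB_apply, map_zero,
    ContinuousLinearMap.zero_apply]
  have f1 : ∀ a b, inner ℝ (J a) b = -inner ℝ (J b) a := fun a b => by
    rw [hJ a b, real_inner_comm]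
  rw [hc0, map_zero, real_inner_comm u w, real_inner_comm v w, real_inner_comm u z,
    real_inner_comm v z, real_inner_comm w z, real_inner_comm u v, f1 v u, f1 w u, f1 w v,
    f1 z v, f1 z w, f1 z u, ContinuousLinearMap.zero_apply]
  ring

end Run7.h232.Pinch
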