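import Pool.Agent.Run7.h232.Pinch.Berger

/-!
# Positivity of the curvature operator under pinching, for bivectors written in any basis
-/

set_option linter.unusedSimpArgs false

open Finset Module

namespace Run7.h232.Pinch

variable {V : Type*} [NormedAddCommGroup V] [InnerProductSpace ℝ V]

theorem trace_pair {R : V → V → V → V → ℝ} (h : CurvForm R) {ι κ : Type*} [Fintype ι] [Fintype κ]
    (f : OrthonormalBasis κ ℝ V) (s : ι → ℝ) (p q : ι → V) (z w : V) :
    ∑ k, R (f k) (∑ i, s i • (inner ℝ (p i) (f k) : ℝ) • q i) z w = ∑ i, s i * R (p i) (q i) z w := by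
  have h1 : ∀ k, R (f k) (∑ i, s i • (inner ℝ (p i) (f k) : ℝ) • q i) z w =
      ∑ i, s i * (inner ℝ (p i) (f k) * R (f k) (q i) z w) := by
    intro k
    rw [h.sum₂]
    refine sum_congr rfl fun i _ => ?_
    rw [h.smul₂, h.smul₂]
  rw [sum_congr rfl fun k _ => h1 k, sum_comm]
  refine sum_congr rfl fun i _ => ?_
  rw [← mul_sum]
  congr 1
  have h2 : p i = ∑ k, (inner ℝ (f k) (p i) : ℝ) • f k := (f.sum_repr' (p i)).symm
  conv_rhs => rw [h2, h.sum₁]
  refine sum_congr rfl fun k _ => ?_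
  rw [h.smul₁, real_inner_comm]

/-- the constant `(2m-2)/(2m+1)`, `m = ⌊d/2⌋` -/
noncomputable def pconst (d : ℕ) : ℝ := (2 * ((d / 2 : ℕ) : ℝ) - 2) / (2 * ((d / 2 : ℕ) : ℝ) + 1)

theorem pos_of_pinch [FiniteDimensional ℝ V] {d : ℕ} (b : Basis (Fin d) ℝ V)
    {R : V → V → V → V → ℝ} (h : CurvForm R) {δ D : ℝ} (hD : 0 < D) (hδ1 : δ ≤ 1)
    (hδ : pconst d < δ)
    (hlo : ∀ x y, (δ * D) * area2 x y ≤ R x y y x) (hhi : ∀ x y, R x y y x ≤ D * area2 x y)
    (w : Fin d → Fin d → ℝ) (hw : ∀ i j, w i j = -w j i) (hw0 : w ≠ 0) :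
    0 < ∑ i, ∑ j, ∑ k, ∑ l, w i j * w k l * R (b i) (b j) (b l) (b k) := by
  classical
  -- the skew-adjoint operator of `w`
  let A : V →ₗ[ℝ] V := ∑ i, ∑ j, w i j • ((LinearMap.toSpanSingleton ℝ V (b j)) ∘ₗ
    (innerSL ℝ (b i)).toLinearMap)
  have hA : ∀ v, A v = ∑ i, ∑ j, w i j • (inner ℝ (b i) v : ℝ) • b j := by
    intro v
    simp [A, LinearMap.sum_apply]
  have hskew : ∀ x y, inner ℝ (A x) y = -inner ℝ x (A y) := by
    intro x y
    rw [hA, hA]
    simp only [sum_inner, inner_sum, inner_smul_left, inner_smul_right, conj_trivial]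
    rw [sum_comm, ← sum_neg_distrib]
    refine sum_congr rfl fun i _ => ?_
    rw [← sum_neg_distrib]
    refine sum_congr rfl fun j _ => ?_
    rw [hw j i, real_inner_comm x (b j)]
    ring
  obtain ⟨m, e, e', t, h1, h2, h3, h4, -, -⟩ := exists_normal _ A hskew le_rfl
  have hm : 2 * m ≤ d := by
    have := two_mul_le_finrank h1 h2 h3
    rwa [finrank_eq_card_basis b, Fintype.card_fin] at this
  -- transfer
  let f := stdOrthonormalBasis ℝ V
  have key : ∀ z u, ∑ i, ∑ j, w i j * R (b i) (b j) z u = 2 * ∑ a, t a * R (e a) (e' a) z u := by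
    intro z u
    have k1 := trace_pair h f (fun ij : Fin d × Fin d => w ij.1 ij.2) (fun ij => b ij.1)
      (fun ij => b ij.2) z u
    have k2 : ∑ k, R (f k) (A (f k)) z u = ∑ i, ∑ j, w i j * R (b i) (b j) z u := by
      rw [← Fintype.sum_prod_type' (f := fun i j => w i j * R (b i) (b j) z u)]
      rw [← k1]
      refine sum_congr rfl fun k _ => ?_
      rw [hA, ← Fintype.sum_prod_type' (f := fun i j => w i j • (inner ℝ (b i) (f k) : ℝ) • b j)]
    have k3 := trace_pair h f t e e' z u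
    have k4 := trace_pair h f t e' e z u
    have k5 : ∑ k, R (f k) (A (f k)) z u =
        ∑ a, t a * R (e a) (e' a) z u - ∑ a, t a * R (e' a) (e a) z u := by
      rw [← k3, ← k4, ← sum_sub_distrib]
      refine sum_congr rfl fun k _ => ?_
      rw [h4, ← h.sub₂]
      congr 1
      rw [← sum_sub_distrib]
      refine sum_congr rfl fun a _ => ?_
      rw [smul_sub]
    rw [← k2, k5, mul_sum, ← sum_sub_distrib]
    refine sum_congr rfl fun a _ => ?_
    rw [h.skew₁₂ (e' a)]
    ring
  have hsum : ∑ i, ∑ j, ∑ k, ∑ l, w i j * w k l * R (b i) (b j) (b l) (b k) =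
      4 * ∑ a, ∑ c, t a * t c * R (e a) (e' a) (e' c) (e c) := by
    have s1 : ∀ i j, ∑ k, ∑ l, w i j * w k l * R (b i) (b j) (b l) (b k) =
        w i j * (2 * ∑ c, t c * R (b i) (b j) (e' c) (e c)) := by
      intro i j
      have := key (b j) (b i)
      have s2 : ∀ k l, w i j * w k l * R (b i) (b j) (b l) (b k) =
          w i j * (w k l * R (b k) (b l) (b j) (b i)) := by
        intro k l
        rw [h.pair (b i) (b j), h.skew₁₂ (b l), h.skew₃₄ (b k)]
        ring
      simp only [s2]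
      simp only [← mul_sum]
      rw [this]
      congr 2
      refine sum_congr rfl fun c _ => ?_
      rw [h.pair (b i) (b j), h.skew₁₂ (e' c), h.skew₃₄ (e c)]
    simp only [s1]
    have s3 : ∀ i j, w i j * (2 * ∑ c, t c * R (b i) (b j) (e' c) (e c)) =
        ∑ c, 2 * t c * (w i j * R (b i) (b j) (e' c) (e c)) := by
      intro i j
      rw [mul_sum, mul_sum]
      refine sum_congr rfl fun c _ => ?_
      ring
    simp only [s3]
    have s4 : ∑ i, ∑ j, ∑ c, 2 * t c * (w i j * R (b i) (b j) (e' c) (e c)) =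
        ∑ c, 2 * t c * ∑ i, ∑ j, w i j * R (b i) (b j) (e' c) (e c) := by
      rw [sum_congr rfl (fun i _ => sum_comm), sum_comm]
      refine sum_congr rfl fun c _ => ?_
      rw [mul_sum]
      refine sum_congr rfl fun i _ => ?_
      rw [mul_sum]
    rw [s4]
    simp only [key]
    have s5 : 4 * ∑ a, ∑ c, t a * t c * R (e a) (e' a) (e' c) (e c) =
        ∑ c, ∑ a, 4 * (t a * t c * R (e a) (e' a) (e' c) (e c)) := by
      rw [sum_comm, mul_sum]
      refine sum_congr rfl fun c _ => ?_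
      rw [mul_sum]
    rw [s5]
    refine sum_congr rfl fun c _ => ?_
    rw [mul_sum, mul_sum]
    refine sum_congr rfl fun a _ => ?_
    ring
  have ht0 : 0 < ∑ a, t a ^ 2 := by
    by_contra hcon
    push Not at hcon
    have hz : ∀ a, t a = 0 := by
      have h5 : ∑ a, t a ^ 2 = 0 := le_antisymm hcon (sum_nonneg fun a _ => sq_nonneg _)
      rw [sum_eq_zero_iff_of_nonneg (fun a _ => sq_nonneg _)] at h5
      intro a
      have := h5 a (mem_univ a)
      exact pow_eq_zero_iff (by norm_num) |>.1 this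
    have hAz : ∀ v, A v = 0 := by
      intro v; rw [h4]; simp [hz]
    apply hw0
    -- nondegeneracy
    have h6 : ∀ v j, ∑ i, w i j * inner ℝ (b i) v = (0 : ℝ) := by
      intro v j
      have h7 := hAz v
      rw [hA, sum_comm] at h7
      have h8 : ∑ j, (∑ i, w i j * inner ℝ (b i) v) • b j = 0 := by
        rw [← h7]
        refine sum_congr rfl fun j _ => ?_
        rw [sum_smul]
        refine sum_congr rfl fun i _ => ?_
        rw [mul_smul]
      exact Fintype.linearIndependent_iff.1 b.linearIndependent _ h8 j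
    funext i j
    have h9 : ∑ i, w i j • b i = 0 := by
      have h10 : ∀ v, inner ℝ (∑ i, w i j • b i) v = 0 := by
        intro v
        rw [sum_inner, ← h6 v j]
        refine sum_congr rfl fun i _ => ?_
        rw [inner_smul_left]; simp
      have := h10 (∑ i, w i j • b i)
      rwa [inner_self_eq_zero] at this
    exact Fintype.linearIndependent_iff.1 b.linearIndependent _ h9 i
  have hq := quad_lower h hlo hhi (by nlinarith) t h1 h2 h3
  rw [hsum]
  have hmr : (m : ℝ) ≤ ((d / 2 : ℕ) : ℝ) := by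
    have : m ≤ d / 2 := by omega
    exact_mod_cast this
  have hm0 : (0 : ℝ) ≤ m := Nat.cast_nonneg m
  have hpos : 0 < δ * D - 2 / 3 * (D - δ * D) * ((m : ℝ) - 1) := by
    rw [pconst, div_lt_iff₀ (by positivity)] at hδ
    have h11 : 0 < 3 * δ - 2 * (1 - δ) * (((d / 2 : ℕ) : ℝ) - 1) := by nlinarith
    have h12 : 3 * δ - 2 * (1 - δ) * (((d / 2 : ℕ) : ℝ) - 1) ≤ 3 * δ - 2 * (1 - δ) * ((m : ℝ) - 1) := by
      nlinarith
    have h13 : 0 < 3 * δ - 2 * (1 - δ) * ((m : ℝ) - 1) := lt_of_lt_of_le h11 h12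
    have : δ * D - 2 / 3 * (D - δ * D) * ((m : ℝ) - 1) =
        D / 3 * (3 * δ - 2 * (1 - δ) * ((m : ℝ) - 1)) := by ring
    rw [this]
    positivity
  have := mul_pos hpos ht0
  linarith

end Run7.h232.Pinch
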