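import Pool.Agent.Run7.h232.Pinch.Coord
import Pool.Agent.Run7.h232.Pinch.Pos

/-!
# Upper bound, in coordinates: pinching above the constant forces a positive curvature operator
-/

set_option linter.unusedSimpArgs false
set_option maxSynthPendingDepth 3
set_option linter.unusedSectionVars false
set_option linter.deprecated false

open Finset Module Filter Topology

namespace Run7.h232.Pinch

/-- the algebraic statement, for an inner product given by a core -/
theorem pos_of_core {V : Type*} [AddCommGroup V] [Module ℝ V] [FiniteDimensional ℝ V]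
    (c : InnerProductSpace.Core ℝ V) {d : ℕ} (b : Basis (Fin d) ℝ V)
    {R : V → V → V → V → ℝ} (h : CurvForm R) {δ D : ℝ} (hD : 0 < D) (hδ1 : δ ≤ 1)
    (hδ : pconst d < δ)
    (hlo : ∀ x y, (δ * D) * (c.inner x x * c.inner y y - c.inner x y ^ 2) ≤ R x y y x)
    (hhi : ∀ x y, R x y y x ≤ D * (c.inner x x * c.inner y y - c.inner x y ^ 2))
    (w : Fin d → Fin d → ℝ) (hw : ∀ i j, w i j = -w j i) (hw0 : w ≠ 0) :
    0 < ∑ i, ∑ j, ∑ k, ∑ l, w i j * w k l * R (b i) (b j) (b l) (b k) := by
  let i1 : NormedAddCommGroup V := @InnerProductSpace.Core.toNormedAddCommGroup ℝ V _ _ _ c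
  let i2 : InnerProductSpace ℝ V := InnerProductSpace.ofCore c.toCore
  exact pos_of_pinch b h hD hδ1 hδ hlo hhi w hw hw0

variable {E : Type*} [NormedAddCommGroup E] [NormedSpace ℝ E]

/-- the inner product space structure given by a positive definite symmetric form -/
@[reducible] noncomputable def coreOf (B : E →L[ℝ] E →L[ℝ] ℝ) (hs : ∀ u v, B u v = B v u)
    (hp : ∀ u, u ≠ 0 → 0 < B u u) : InnerProductSpace.Core ℝ E where
  inner u v := B u v
  conj_inner_symm u v := by simp [hs u v]
  re_inner_nonneg u := by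
    by_cases h : u = 0
    · simp [h]
    · exact (hp u h).le
  add_left u v w := by simp
  smul_left u v r := by simp
  definite u h := by
    by_contra hne
    exact (hp u hne).ne' h

/-- Gram determinant -/
theorem gram_pos {B : E →L[ℝ] E →L[ℝ] ℝ} (hs : ∀ u v, B u v = B v u)
    (hp : ∀ u, u ≠ 0 → 0 < B u u) {u v : E} (h : LinearIndependent ℝ ![u, v]) :
    0 < B u u * B v v - B u v ^ 2 := by
  have hv : v ≠ 0 := h.ne_zero 1
  have hv0 := hp v hv
  have hw : u - (B u v / B v v) • v ≠ 0 := by
    intro h0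
    rw [LinearIndependent.pair_iff] at h
    have := h 1 (-(B u v / B v v)) (by rw [one_smul, neg_smul, ← sub_eq_add_neg]; exact h0)
    exact one_ne_zero this.1
  have h1 := hp _ hw
  simp only [map_sub, map_smul, ContinuousLinearMap.sub_apply, ContinuousLinearMap.smul_apply,
    smul_eq_mul] at h1
  rw [hs v u] at h1
  have h2 : B u u - B u v / B v v * B u v - B u v / B v v * (B u v - B u v / B v v * B v v) =
      (B u u * B v v - B u v ^ 2) / B v v := by
    field_simp
    ring
  rw [h2] at h1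
  by_contra hcon
  push Not at hcon
  have := div_nonpos_of_nonpos_of_nonneg hcon hv0.le
  linarith

theorem dep_cases {u v : E} (h : ¬ LinearIndependent ℝ ![u, v]) :
    (∃ c : ℝ, u = c • v) ∨ (∃ c : ℝ, v = c • u) := by
  rw [LinearIndependent.pair_iff] at h
  push Not at h
  obtain ⟨s, t, h1, h2⟩ := h
  by_cases hs : s = 0
  · have ht := h2 hs
    right
    refine ⟨-(t⁻¹ * s), ?_⟩
    have : t • v = -(s • u) := by rw [← add_eq_zero_iff_eq_neg', h1]
    rw [neg_smul, mul_smul, ← smul_neg, ← this, smul_smul, inv_mul_cancel₀ ht, one_smul]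
  · left
    refine ⟨-(s⁻¹ * t), ?_⟩
    have : s • u = -(t • v) := by rw [← add_eq_zero_iff_eq_neg, h1]
    rw [neg_smul, mul_smul, ← smul_neg, ← this, smul_smul, inv_mul_cancel₀ hs, one_smul]

/-- `g` is `δ`-pinched at `x` -/
def PinchedAt (g : E → E →L[ℝ] E →L[ℝ] ℝ) (x : E) (δ : ℝ) : Prop :=
  (∀ u v, LinearIndependent ℝ ![u, v] → 0 < sect g x u v) ∧
  (∀ u v u' v', LinearIndependent ℝ ![u, v] → LinearIndependent ℝ ![u', v'] →
    δ * sect g x u' v' ≤ sect g x u v)

theorem upper_coord [FiniteDimensional ℝ E] {g : E → E →L[ℝ] E →L[ℝ] ℝ} {x : E}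
    (hg : MetricAt g x) {d : ℕ} (b : Basis (Fin d) ℝ E) {δ : ℝ} (hδ0 : 0 < δ) (hδ1 : δ ≤ 1)
    (hδ : pconst d < δ) (hp : PinchedAt g x δ)
    (w : Fin d → Fin d → ℝ) (hw : ∀ i j, w i j = -w j i) (hw0 : w ≠ 0) :
    0 < ∑ i, ∑ j, ∑ k, ∑ l, w i j * w k l * curv g x (b i) (b j) (b l) (b k) := by
  have hcf := curvForm hg
  have hs := hg.symm.self_of_nhds
  obtain ⟨hpos, hpin⟩ := hp
  -- a linearly independent pair
  obtain ⟨i₀, j₀, hij⟩ : ∃ i j, w i j ≠ 0 := by
    by_contra hcon
    push Not at hcon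
    exact hw0 (by funext i j; exact hcon i j)
  have hne : i₀ ≠ j₀ := by
    rintro rfl
    have := hw i₀ i₀
    exact hij (by linarith)
  have hli : LinearIndependent ℝ ![b i₀, b j₀] := by
    have hinj : Function.Injective ![i₀, j₀] := by
      intro p q hpq
      fin_cases p <;> fin_cases q
      · rfl
      · exact absurd hpq hne
      · exact absurd hpq.symm hne
      · rfl
    have := b.linearIndependent.comp ![i₀, j₀] hinj
    convert this using 1
    funext p
    fin_cases p <;> rfl
  -- supremum of the sectional curvatures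
  set S : Set ℝ := {k | ∃ u v, LinearIndependent ℝ ![u, v] ∧ k = sect g x u v} with hS
  have hSne : S.Nonempty := ⟨_, _, _, hli, rfl⟩
  have hSbd : BddAbove S := by
    refine ⟨sect g x (b i₀) (b j₀) / δ, ?_⟩
    rintro _ ⟨u, v, huv, rfl⟩
    rw [le_div_iff₀ hδ0]
    have := hpin _ _ _ _ hli huv
    linarith
  set D := sSup S with hD
  have hDle : ∀ u v, LinearIndependent ℝ ![u, v] → sect g x u v ≤ D :=
    fun u v huv => le_csSup hSbd ⟨u, v, huv, rfl⟩
  have hDpos : 0 < D := lt_of_lt_of_le (hpos _ _ hli) (hDle _ _ hli)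
  have hDlo : ∀ u v, LinearIndependent ℝ ![u, v] → δ * D ≤ sect g x u v := by
    intro u v huv
    have : D ≤ sect g x u v / δ := by
      refine csSup_le hSne ?_
      rintro _ ⟨u', v', huv', rfl⟩
      rw [le_div_iff₀ hδ0]
      have := hpin _ _ _ _ huv huv'
      linarith
    rw [le_div_iff₀ hδ0] at this
    linarith
  have hdep : ∀ u v, ¬ LinearIndependent ℝ ![u, v] → g x u u * g x v v - g x u v ^ 2 = 0 ∧
      curv g x u v v u = 0 := by
    intro u v huv
    rcases dep_cases huv with ⟨c, rfl⟩ | ⟨c, rfl⟩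
    · constructor
      · simp only [map_smul, ContinuousLinearMap.smul_apply, smul_eq_mul]; ring
      · rw [hcf.smul₁, hcf.self₁₂, mul_zero]
    · constructor
      · simp only [map_smul, ContinuousLinearMap.smul_apply, smul_eq_mul]; ring
      · rw [hcf.smul₂, hcf.self₁₂, mul_zero]
  refine pos_of_core (coreOf (g x) hs hg.pos) b hcf hDpos hδ1 hδ ?_ ?_ w hw hw0
  · intro u v
    by_cases huv : LinearIndependent ℝ ![u, v]
    · have h1 := gram_pos hs hg.pos huv
      have h2 := hDlo u v huv
      rw [sect, le_div_iff₀ h1] at h2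
      exact h2
    · obtain ⟨h1, h2⟩ := hdep u v huv
      change _ * (g x u u * g x v v - g x u v ^ 2) ≤ _
      rw [h1, h2]; simp
  · intro u v
    by_cases huv : LinearIndependent ℝ ![u, v]
    · have h1 := gram_pos hs hg.pos huv
      have h2 := hDle u v huv
      rw [sect, div_le_iff₀ h1] at h2
      exact h2
    · obtain ⟨h1, h2⟩ := hdep u v huv
      change _ ≤ _ * (g x u u * g x v v - g x u v ^ 2)
      rw [h1, h2]; simp

end Run7.h232.Pinch
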