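import Pool.Agent.Run7.h232.Pinch.ExMfd
import Pool.Agent.Run7.h232.Pinch.Upper

/-!
# The optimal pinching constant
-/

set_option linter.unusedSimpArgs false
set_option maxSynthPendingDepth 3
set_option linter.unusedSectionVars false
set_option linter.deprecated false

open Finset Module Filter Topology
open scoped Manifold ContDiff
open Bundle TopologicalSpace

namespace Run7.h232.Pinch

theorem mem_of_gt {d : ℕ} {δ : ℝ} (h0 : 0 < δ) (h1 : δ ≤ 1) (h : pconst d < δ) :
    δ ∈ PinchSet d := by
  refine ⟨h0, h1, ?_⟩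
  intro E _ _ _ M _ _ _ _ _ g hd hg p b w hw hw0
  have hp : PinchedAt (chartMetric g p) (extChartAt 𝓘(ℝ, E) p p) δ := by
    have := hg p
    simp only [sectAt_eq] at this
    exact this
  have h2 := upper_coord (metricAt_chart g p) b h0 h1 (by rw [hd]; exact h) hp w hw hw0
  simp only [curvAt_eq]
  exact h2

theorem le_of_mem {d : ℕ} (hd : 2 ≤ d) {δ : ℝ} (h : δ ∈ PinchSet d) : pconst d ≤ δ := by
  obtain ⟨h0, h1, h⟩ := h
  by_contra hlt
  push Not at hlt
  set c : ℝ := 2 * ((d / 2 : ℕ) : ℝ) + 1 with hc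
  have hc0 : 0 < c := by positivity
  have hδc : δ * c < c - 3 := by
    rw [pconst, lt_div_iff₀ hc0] at hlt
    linarith
  have hev := (pinched_near (J := Jop d) hc0.le (Jop_skew d) (Jop_norm d) h0 hδc).and
    (small_ev (V := EuclideanSpace ℝ (Fin d)) c)
  obtain ⟨r, hr, hball⟩ := Metric.eventually_nhds_iff_ball.1 hev
  let U : Opens (EuclideanSpace ℝ (Fin d)) := ⟨Metric.ball 0 r, Metric.isOpen_ball⟩
  have hs : ∀ q : U, ∀ u v, exG (Jop d) c q.1 u v = exG (Jop d) c q.1 v u :=
    fun q u v => exG_symm q.1 u v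
  have hp : ∀ q : U, ∀ u, u ≠ 0 → 0 < exG (Jop d) c q.1 u u :=
    fun q => exG_pos hc0.le (hball q.1 q.2).2
  let g : RMetric (EuclideanSpace ℝ (Fin d)) U :=
    metricOn U (exG (Jop d) c) ((contDiff_exG (Jop d) c).of_le le_top) hs hp
  have hg : ∀ p : U, chartMetric g p =ᶠ[𝓝 p.1] exG (Jop d) c := by
    intro p
    have := chartMetric_metricOn U ((contDiff_exG (Jop d) c).of_le le_top) hs hp p
    rwa [extChart_coe] at this
  have hsect : ∀ (p : U) u v, sectAt g p u v = sect (exG (Jop d) c) p.1 u v := by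
    intro p u v
    rw [sectAt_eq, extChart_coe]
    exact sect_congr (hg p) u v
  have hpin : Pinched g δ := by
    intro p
    simp only [hsect]
    exact (hball p.1 p.2).1
  have hfin : finrank ℝ (EuclideanSpace ℝ (Fin d)) = d := finrank_euclideanSpace_fin
  have hpos := h (EuclideanSpace ℝ (Fin d)) U g hfin hpin ⟨0, Metric.mem_ball_self hr⟩
  have hcurv : ∀ u v w z, curvAt g ⟨0, Metric.mem_ball_self hr⟩ u v w z =
      curv (exG (Jop d) c) 0 u v w z := by
    intro u v w z
    rw [curvAt_eq, extChart_coe]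
    exact curv_congr (hg _) u v w z
  have hz := sum_wJ d hc
  have hkey : ∀ (n : ℕ), n = d →
      (∀ (b : Basis (Fin n) ℝ (EuclideanSpace ℝ (Fin d))) (w : Fin n → Fin n → ℝ),
        (∀ i j, w i j = -w j i) → w ≠ 0 →
        0 < ∑ i, ∑ j, ∑ k, ∑ l, w i j * w k l * curv (exG (Jop d) c) 0 (b i) (b j) (b l) (b k)) →
      False := by
    rintro n rfl hn
    have := hn (EuclideanSpace.basisFun (Fin n) ℝ).toBasis (wJ n) (wJ_skew n) (wJ_ne n hd)
    simp only [OrthonormalBasis.coe_toBasis, EuclideanSpace.basisFun_apply] at this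
    simp only [ev] at hz
    rw [hz] at this
    exact lt_irrefl _ this
  refine hkey _ hfin fun b w hw hw0 => ?_
  have := hpos b w hw hw0
  simp only [hcurv] at this
  exact this

theorem isGLB_pinchSet {d : ℕ} (hd : 2 ≤ d) : IsGLB (PinchSet d) (pconst d) := by
  constructor
  · intro δ h
    exact le_of_mem hd h
  · intro b hb
    by_contra hlt
    push Not at hlt
    have h2 : (1 : ℝ) ≤ ((d / 2 : ℕ) : ℝ) := by
      have : 1 ≤ d / 2 := by omega
      exact_mod_cast this
    have h3 : 0 ≤ pconst d := by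
      rw [pconst]
      exact div_nonneg (by linarith) (by linarith)
    have h4 : pconst d < 1 := by
      rw [pconst, div_lt_one (by linarith)]
      linarith
    set δ := min ((pconst d + b) / 2) 1 with hδ
    have h5 : pconst d < δ := lt_min (by linarith) h4
    have h6 : δ ≤ 1 := min_le_right _ _
    have h7 : δ < b := lt_of_le_of_lt (min_le_left _ _) (by linarith)
    have := hb (mem_of_gt (h3.trans_lt h5) h6 h5)
    linarith

end Run7.h232.Pinch
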