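import Pool.Agent.Run7.h232.Pinch.Transfer

/-!
# The metric of a Riemannian manifold, read in a chart
-/

set_option linter.unusedSimpArgs false
set_option maxSynthPendingDepth 3
set_option linter.unusedSectionVars false
set_option linter.deprecated false

open Finset Module Filter Topology
open scoped Manifold ContDiff
open Bundle

namespace Run7.h232.Pinch

variable {E : Type*} [NormedAddCommGroup E] [NormedSpace ℝ E] [FiniteDimensional ℝ E]
  {M : Type*} [TopologicalSpace M] [ChartedSpace E M] [IsManifold 𝓘(ℝ, E) ∞ M]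

/-- the derivative of the inverse chart -/
noncomputable abbrev dinv (p : M) (y : E) :=
  mfderiv 𝓘(ℝ, E) 𝓘(ℝ, E) (extChartAt 𝓘(ℝ, E) p).symm y

/-- The metric in a chart, as a family of continuous bilinear forms. -/
noncomputable def chartMetric (g : RMetric E M) (p : M) (y : E) : E →L[ℝ] E →L[ℝ] ℝ :=
  ((dinv p y).precomp ℝ).comp ((g.inner ((extChartAt 𝓘(ℝ, E) p).symm y)).comp (dinv p y))

theorem chartMetric_apply (g : RMetric E M) (p : M) (y u v : E) :
    chartMetric g p y u v = g.inner ((extChartAt 𝓘(ℝ, E) p).symm y) (dinv p y u) (dinv p y v) := rfl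

theorem chartForm_eq (g : RMetric E M) (p : M) : chartForm g p = sc (chartMetric g p) := rfl

theorem symmL_eq (p q : M) (hq : q ∈ (chartAt E p).source) :
    (trivializationAt E (TangentSpace 𝓘(ℝ, E)) p).symmL ℝ q =
      dinv p (extChartAt 𝓘(ℝ, E) p q) := by
  have h : Set.range 𝓘(ℝ, E) = Set.univ := by simp
  rw [TangentBundle.symmL_trivializationAt hq, h, mfderivWithin_univ]

/-- the coordinate vector fields are smooth -/
theorem smooth_frame (p : M) (u : E) :
    ContMDiffAt 𝓘(ℝ, E) (𝓘(ℝ, E).prod 𝓘(ℝ, E)) ∞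
      (fun q => TotalSpace.mk' E q
        ((trivializationAt E (TangentSpace 𝓘(ℝ, E)) p).symmL ℝ q u)) p := by
  rw [contMDiffAt_totalSpace]
  refine ⟨contMDiffAt_id, (contMDiffAt_const (c := u)).congr_of_eventuallyEq ?_⟩
  filter_upwards [(trivializationAt E (TangentSpace 𝓘(ℝ, E))
    p).open_baseSet.mem_nhds (FiberBundle.mem_baseSet_trivializationAt' p)] with q hq
  change (trivializationAt E (TangentSpace 𝓘(ℝ, E)) p
    (TotalSpace.mk' E q ((trivializationAt E (TangentSpace 𝓘(ℝ, E)) p).symmL ℝ q u))).2 = u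
  rw [Trivialization.symmL_apply _ hq, Trivialization.apply_mk_symm _ hq]

theorem smooth_coef (g : RMetric E M) (p : M) (u v : E) :
    ContMDiffAt 𝓘(ℝ, E) 𝓘(ℝ, ℝ) ∞ (fun q => g.inner q
      ((trivializationAt E (TangentSpace 𝓘(ℝ, E)) p).symmL ℝ q u)
      ((trivializationAt E (TangentSpace 𝓘(ℝ, E)) p).symmL ℝ q v)) p := by
  have h := ContMDiffAt.clm_bundle_apply₂ (F₁ := E)
    (F₂ := E) (F₃ := ℝ) (E₃ := Bundle.Trivial M ℝ) (b := id)
    (g.contMDiff p) (smooth_frame p u) (smooth_frame p v)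
  rw [contMDiffAt_totalSpace] at h
  exact h.2

theorem contDiffAt_clm {D E F : Type*} [NormedAddCommGroup D] [NormedSpace ℝ D]
    [NormedAddCommGroup E] [NormedSpace ℝ E] [FiniteDimensional ℝ E] [NormedAddCommGroup F]
    [NormedSpace ℝ F] {n : WithTop ℕ∞} {f : D → E →L[ℝ] F} {x : D}
    (h : ∀ y, ContDiffAt ℝ n (fun x => f x y) x) : ContDiffAt ℝ n f x := by
  have hd : finrank ℝ E = finrank ℝ (Fin (finrank ℝ E) → ℝ) := (finrank_fin_fun ℝ).symm
  let e₁ := ContinuousLinearEquiv.ofFinrankEq hd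
  let e₂ := (e₁.arrowCongr (1 : F ≃L[ℝ] F)).trans
    (ContinuousLinearEquiv.piRing (Fin (finrank ℝ E)))
  rw [← Function.id_comp f, ← e₂.symm_comp_self]
  exact e₂.symm.contDiff.contDiffAt.comp x (contDiffAt_pi.mpr fun i => h _)

/-- the metric in a chart is smooth -/
theorem contDiffAt_chartMetric (g : RMetric E M) (p : M) :
    ContDiffAt ℝ 2 (chartMetric g p) (extChartAt 𝓘(ℝ, E) p p) := by
  have hc : ∀ u v, ContDiffAt ℝ ∞ (fun y => chartMetric g p y u v)
      (extChartAt 𝓘(ℝ, E) p p) := by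
    intro u v
    have h1 := smooth_coef g p u v
    have h2 : ContMDiffAt 𝓘(ℝ, E) 𝓘(ℝ, E) ∞ (extChartAt 𝓘(ℝ, E) p).symm
        (extChartAt 𝓘(ℝ, E) p p) :=
      (contMDiffOn_extChartAt_symm p).contMDiffAt (extChartAt_target_mem_nhds p)
    have h3 : ContMDiffAt 𝓘(ℝ, E) 𝓘(ℝ, ℝ) ∞
      ((fun q => g.inner q
      ((trivializationAt E (TangentSpace 𝓘(ℝ, E)) p).symmL ℝ q u)
      ((trivializationAt E (TangentSpace 𝓘(ℝ, E)) p).symmL ℝ q v)) ∘
        (extChartAt 𝓘(ℝ, E) p).symm) (extChartAt 𝓘(ℝ, E) p p) := by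
      refine ContMDiffAt.comp _ ?_ h2
      rw [extChartAt_to_inv]
      exact h1
    rw [contMDiffAt_iff_contDiffAt] at h3
    refine h3.congr_of_eventuallyEq ?_
    filter_upwards [extChartAt_target_mem_nhds (I := 𝓘(ℝ, E)) p] with y hy
    have hq : (extChartAt 𝓘(ℝ, E) p).symm y ∈ (chartAt E p).source := by
      rw [← extChartAt_source 𝓘(ℝ, E)]
      exact (extChartAt 𝓘(ℝ, E) p).map_target hy
    rw [chartMetric_apply, Function.comp_apply, symmL_eq p _ hq,
      (extChartAt 𝓘(ℝ, E) p).right_inv hy]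
    rfl
  exact contDiffAt_clm fun u => contDiffAt_clm fun v => (hc u v).of_le ENat.LEInfty.out

theorem metricAt_chart (g : RMetric E M) (p : M) :
    MetricAt (chartMetric g p) (extChartAt 𝓘(ℝ, E) p p) where
  smooth := contDiffAt_chartMetric g p
  symm := Eventually.of_forall fun y u v => by
    rw [chartMetric_apply, chartMetric_apply, g.symm]
  pos := by
    intro u hu
    rw [chartMetric_apply, extChartAt_to_inv]
    refine g.pos p _ ?_
    have h1 := isInvertible_mfderivWithin_extChartAt_symm (I := 𝓘(ℝ, E)) (x := p)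
      (mem_extChartAt_target p)
    have h : Set.range 𝓘(ℝ, E) = Set.univ := by simp
    rw [h, mfderivWithin_univ] at h1
    intro h0
    have h2 : dinv p (extChartAt 𝓘(ℝ, E) p p) u = dinv p (extChartAt 𝓘(ℝ, E) p p) 0 := by
      rw [map_zero]; exact h0
    exact hu (h1.injective h2)

theorem curvAt_eq (g : RMetric E M) (p : M) (u v w z : E) :
    curvAt g p u v w z = curv (chartMetric g p) (extChartAt 𝓘(ℝ, E) p p) u v w z := by
  rw [curvAt, chartForm_eq]
  exact curvTensor_eq (metricAt_chart g p) u v w z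

theorem sectAt_eq (g : RMetric E M) (p : M) (u v : E) :
    sectAt g p u v = sect (chartMetric g p) (extChartAt 𝓘(ℝ, E) p p) u v := by
  rw [sectAt, chartForm_eq]
  exact sectK_eq (metricAt_chart g p) u v

end Run7.h232.Pinch
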