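import Pool.Agent.Run7.h232.Pinch.Example

/-!
# The standard skew operator `J` and the failure of positivity at the origin
-/

set_option linter.unusedSimpArgs false
set_option maxSynthPendingDepth 3
set_option linter.unusedSectionVars false
set_option linter.deprecated false

open Finset Module Filter Topology

namespace Run7.h232.Pinch

variable (d : ℕ)

/-- the involution exchanging `2a` and `2a+1`, on natural numbers -/
def sgv (i : ℕ) : ℕ := if i % 2 = 1 then i - 1 else if i + 1 < d then i + 1 else i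

theorem sgv_lt {i : ℕ} (h : i < d) : sgv d i < d := by
  unfold sgv; split_ifs <;> omega

theorem sgv_sgv {i : ℕ} (h : i < d) : sgv d (sgv d i) = i := by
  unfold sgv; split_ifs <;> omega

/-- the involution exchanging `2a` and `2a+1` -/
def sg (i : Fin d) : Fin d := ⟨sgv d i.val, sgv_lt d i.isLt⟩

theorem sg_invol : Function.Involutive (sg d) := fun i => Fin.ext (sgv_sgv d i.isLt)

/-- the sign -/
def snv (i : ℕ) : ℤ := if i % 2 = 1 then 1 else if i + 1 < d then -1 else 0

theorem snv_sgv {i : ℕ} (h : i < d) : snv d (sgv d i) = -snv d i := by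
  unfold sgv snv; split_ifs <;> first | rfl | omega

theorem snv_sq {i : ℕ} (h : i < d) : snv d i ^ 2 = if i < 2 * (d / 2) then 1 else 0 := by
  unfold snv; split_ifs <;> first | rfl | omega

/-- the sign -/
def sn (i : Fin d) : ℝ := (snv d i.val : ℝ)

theorem sn_sg (i : Fin d) : sn d (sg d i) = -sn d i := by
  unfold sn sg
  rw [snv_sgv d i.isLt]
  push_cast
  rfl

theorem sn_sq (i : Fin d) : sn d i ^ 2 = if i.val < 2 * (d / 2) then 1 else 0 := by
  have := snv_sq d i.isLt
  have h2 : ((snv d i.val : ℝ)) ^ 2 = ((if i.val < 2 * (d / 2) then 1 else 0 : ℤ) : ℝ) := by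
    rw [← this]; push_cast; rfl
  rw [sn, h2]
  split_ifs <;> simp

theorem sum_sn_sq : ∑ i, sn d i ^ 2 = 2 * ((d / 2 : ℕ) : ℝ) := by
  simp only [sn_sq]
  rw [Fin.sum_univ_eq_sum_range (fun i => if i < 2 * (d / 2) then (1 : ℝ) else 0) d,
    ← Finset.sum_filter]
  have : (Finset.range d).filter (fun i => i < 2 * (d / 2)) = Finset.range (2 * (d / 2)) := by
    ext i
    simp only [Finset.mem_filter, Finset.mem_range]
    omega
  rw [this]
  simp

/-- the operator -/
noncomputable def Jl : EuclideanSpace ℝ (Fin d) →ₗ[ℝ] EuclideanSpace ℝ (Fin d) where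
  toFun v := WithLp.toLp 2 (fun i => sn d i * v (sg d i))
  map_add' u v := by
    ext i
    simp [mul_add]
  map_smul' r v := by
    ext i
    simp [mul_left_comm]

noncomputable def Jop : EuclideanSpace ℝ (Fin d) →L[ℝ] EuclideanSpace ℝ (Fin d) :=
  LinearMap.toContinuousLinearMap (Jl d)

theorem Jop_apply (v : EuclideanSpace ℝ (Fin d)) (i : Fin d) :
    Jop d v i = sn d i * v (sg d i) := rfl

theorem Jop_skew (x y : EuclideanSpace ℝ (Fin d)) :
    inner ℝ (Jop d x) y = -inner ℝ x (Jop d y) := by
  simp only [PiLp.inner_apply, Jop_apply, RCLike.inner_apply, conj_trivial]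
  rw [← Finset.sum_neg_distrib, ← Equiv.sum_comp (sg_invol d).toPerm]
  refine Finset.sum_congr rfl fun i _ => ?_
  simp only [Function.Involutive.coe_toPerm, sn_sg, sg_invol d i]
  ring

theorem Jop_norm (x : EuclideanSpace ℝ (Fin d)) : ‖Jop d x‖ ≤ ‖x‖ := by
  rw [← sq_le_sq₀ (norm_nonneg _) (norm_nonneg _), EuclideanSpace.norm_sq_eq,
    EuclideanSpace.norm_sq_eq, ← Equiv.sum_comp (sg_invol d).toPerm (fun i => ‖x i‖ ^ 2)]
  refine Finset.sum_le_sum fun i _ => ?_
  rw [Jop_apply, norm_mul, mul_pow, Function.Involutive.coe_toPerm]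
  have h1 : ‖sn d i‖ ^ 2 ≤ 1 := by
    rw [Real.norm_eq_abs, sq_abs, sn_sq]
    split_ifs <;> norm_num
  have h2 : 0 ≤ ‖x (sg d i)‖ ^ 2 := by positivity
  nlinarith

/-- the standard basis vectors -/
noncomputable def ev (i : Fin d) : EuclideanSpace ℝ (Fin d) := EuclideanSpace.single i 1

theorem inner_ev (i j : Fin d) : inner ℝ (ev d i) (ev d j) = if i = j then (1 : ℝ) else 0 := by
  simp [ev, EuclideanSpace.inner_single_left, eq_comm]

theorem inner_J_ev (i j : Fin d) :
    inner ℝ (Jop d (ev d i)) (ev d j) = if j = sg d i then -sn d i else (0 : ℝ) := by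
  rw [ev, ev, EuclideanSpace.inner_single_right, Jop_apply, EuclideanSpace.single_apply]
  by_cases h : j = sg d i
  · subst h
    simp [sg_invol d i, sn_sg]
  · have h' : sg d j ≠ i := by
      intro h2
      exact h (by rw [← h2, sg_invol d j])
    simp [h, h']

/-- the two-form `J` -/
noncomputable def wJ (i j : Fin d) : ℝ := if j = sg d i then sn d i else 0

theorem wJ_skew (i j : Fin d) : wJ d i j = -wJ d j i := by
  unfold wJ
  by_cases h : j = sg d i
  · subst h
    simp [sg_invol d i, sn_sg]
  · have h' : ¬ i = sg d j := by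
      intro h2
      exact h (by rw [h2, sg_invol d j])
    simp [h, h']

theorem wJ_ne (hd : 2 ≤ d) : wJ d ≠ 0 := by
  intro h
  have := congrFun (congrFun h ⟨1, by omega⟩) ⟨0, by omega⟩
  simp [wJ, sg, sn, sgv, snv] at this

theorem curv_ev {c : ℝ} (hc : 0 ≤ c) (i k : Fin d) :
    curv (exG (Jop d) c) 0 (ev d i) (ev d (sg d i)) (ev d (sg d k)) (ev d k) =
      (c - sn d i ^ 2) * (if k = i then 1 else 0) - (c - sn d i ^ 2) * (if k = sg d i then 1 else 0)
        - 2 * (sn d i * sn d k) := by
  have hinv := sg_invol d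
  have e1 : (sg d k = sg d (sg d i)) ↔ k = sg d i := (hinv.injective).eq_iff
  have e2 : (sg d k = sg d i) ↔ k = i := (hinv.injective).eq_iff
  have e3 : (k = sg d (sg d i)) ↔ k = i := by rw [hinv i]
  have e4 : (k = sg d (sg d k)) ↔ True := by simp [hinv k]
  have e5 : (i = sg d k) ↔ k = sg d i := by
    constructor
    · intro h; rw [h, hinv k]
    · intro h; rw [h, hinv i]
  have e6 : (sg d i = sg d k) ↔ k = i := by rw [eq_comm, e2]
  have e7 : (sg d i = k) ↔ k = sg d i := eq_comm
  have e8 : (i = k) ↔ k = i := eq_comm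
  rw [curv_exG_zero hc (Jop_skew d)]
  simp only [inner_ev, inner_J_ev, e1, e2, e3, e4, e5, e6, e7, e8, sn_sg, if_true, hinv i, hinv k]
  by_cases h1 : k = i
  · by_cases h2 : k = sg d i
    · simp only [h1, h2]
      have h3 : sg d i = i := by rw [← h2, h1]
      have h4 : sn d i = 0 := by
        have := sn_sg d i
        rw [h3] at this
        linarith
      simp [h3, h4]
    · simp only [h1, if_true]
      have h3 : ¬ i = sg d i := by rwa [h1] at h2
      simp only [h3, if_false]
      ring
  · by_cases h2 : k = sg d i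
    · simp only [h2, if_true]
      have h3 : ¬ sg d i = i := by rwa [h2] at h1
      simp only [h3, if_false, if_true, sn_sg, hinv i]
      ring
    · simp only [h1, h2, if_false]
      ring

theorem sum_wJ {c : ℝ} (hc : c = 2 * ((d / 2 : ℕ) : ℝ) + 1) : ∑ i, ∑ j, ∑ k, ∑ l,
    wJ d i j * wJ d k l * curv (exG (Jop d) c) 0 (ev d i) (ev d j) (ev d l) (ev d k) = 0 := by
  have hc0 : 0 ≤ c := by rw [hc]; positivity
  have h1 : ∀ i, ∑ j, ∑ k, ∑ l,
      wJ d i j * wJ d k l * curv (exG (Jop d) c) 0 (ev d i) (ev d j) (ev d l) (ev d k) =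
      2 * (c - 1) * sn d i ^ 2 - 2 * sn d i ^ 2 * ∑ k, sn d k ^ 2 := by
    intro i
    have h2 : ∀ j, ∑ k, ∑ l,
        wJ d i j * wJ d k l * curv (exG (Jop d) c) 0 (ev d i) (ev d j) (ev d l) (ev d k) =
        if j = sg d i then ∑ k, sn d i * sn d k *
          curv (exG (Jop d) c) 0 (ev d i) (ev d j) (ev d (sg d k)) (ev d k) else 0 := by
      intro j
      split_ifs with h
      · refine Finset.sum_congr rfl fun k _ => ?_
        rw [Finset.sum_eq_single (sg d k)]
        · simp [wJ, h]
        · intro l _ hl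
          simp [wJ, hl]
        · intro h; exact absurd (Finset.mem_univ _) h
      · simp [wJ, h]
    simp only [h2, Finset.sum_ite_eq', Finset.mem_univ, if_true]
    simp only [curv_ev d hc0]
    have h3 : ∀ k, sn d i * sn d k * ((c - sn d i ^ 2) * (if k = i then 1 else 0)
        - (c - sn d i ^ 2) * (if k = sg d i then 1 else 0) - 2 * (sn d i * sn d k)) =
        (if k = i then sn d i * sn d k * (c - sn d i ^ 2) else 0)
        - (if k = sg d i then sn d i * sn d k * (c - sn d i ^ 2) else 0)
        - 2 * sn d i ^ 2 * sn d k ^ 2 := by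
      intro k
      split_ifs <;> ring
    simp only [h3, Finset.sum_sub_distrib, Finset.sum_ite_eq', Finset.mem_univ, if_true,
      ← Finset.mul_sum, sn_sg]
    have h4 : sn d i ^ 2 * sn d i ^ 2 = sn d i ^ 2 := by
      rw [sn_sq]; split_ifs <;> norm_num
    linear_combination (-2) * h4
  simp only [h1, Finset.sum_sub_distrib, ← Finset.mul_sum, ← Finset.sum_mul]
  rw [sum_sn_sq, hc]
  ring

end Run7.h232.Pinch
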