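import Mathlib

/-!
# Normal form of skew-adjoint operators on a finite-dimensional real inner product space
-/

open Finset Module

namespace Run7.h232.Pinch

variable {V : Type*} [NormedAddCommGroup V] [InnerProductSpace ℝ V]

/-- a skew-adjoint nonzero operator has a two-dimensional invariant plane on which it is a nonzero
multiple of a rotation by a right angle -/
theorem exists_plane [FiniteDimensional ℝ V] (A : V →ₗ[ℝ] V)
    (hA : ∀ x y, inner ℝ (A x) y = -inner ℝ x (A y)) (h0 : A ≠ 0) :
    ∃ (x y : V) (t : ℝ), t ≠ 0 ∧ inner ℝ x x = 1 ∧ inner ℝ y y = 1 ∧ inner ℝ x y = 0 ∧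
      A x = t • y ∧ A y = -t • x := by
  have hT : ((-(A ∘ₗ A)) : V →ₗ[ℝ] V).IsSymmetric := by
    intro x y
    simp only [LinearMap.neg_apply, LinearMap.comp_apply, inner_neg_left, inner_neg_right]
    rw [hA, hA, neg_neg]
  have hT2 : ∀ x y, inner ℝ ((-(A ∘ₗ A)) x) y = inner ℝ (A x) (A y) := by
    intro x y
    simp only [LinearMap.neg_apply, LinearMap.comp_apply, inner_neg_left]
    rw [hA]; ring
  obtain ⟨i, hi⟩ : ∃ i, hT.eigenvalues rfl i ≠ 0 := by
    by_contra hcon
    push Not at hcon
    apply h0
    have hz : (-(A ∘ₗ A)) = 0 := by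
      apply (hT.eigenvectorBasis rfl).toBasis.ext
      intro i
      rw [OrthonormalBasis.coe_toBasis, hT.apply_eigenvectorBasis, hcon i]
      simp
    ext x
    have := hT2 x x
    rw [hz] at this
    simp only [LinearMap.zero_apply, inner_zero_left] at this
    have h2 := this.symm
    rw [inner_self_eq_zero] at h2
    simp [h2]
  set x := hT.eigenvectorBasis rfl i with hx
  set μ : ℝ := hT.eigenvalues rfl i with hμ
  have hxx : inner ℝ x x = 1 := by
    have := (hT.eigenvectorBasis rfl).orthonormal.1 i
    rw [real_inner_self_eq_norm_sq, this]; norm_num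
  have hTx : (-(A ∘ₗ A)) x = μ • x := by
    have := hT.apply_eigenvectorBasis rfl i
    simpa using this
  have hAA : A (A x) = -(μ • x) := by
    have : -(A (A x)) = μ • x := by simpa using hTx
    rw [← this, neg_neg]
  have hmu : inner ℝ (A x) (A x) = μ := by
    rw [← hT2, hTx, inner_smul_left, hxx]; simp
  have hμ0 : 0 < μ := lt_of_le_of_ne (by rw [← hmu]; exact real_inner_self_nonneg) (Ne.symm hi)
  set t := Real.sqrt μ with ht
  have ht0 : 0 < t := Real.sqrt_pos.2 hμ0
  have htt : t * t = μ := Real.mul_self_sqrt hμ0.le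
  refine ⟨x, t⁻¹ • A x, t, ht0.ne', hxx, ?_, ?_, ?_, ?_⟩
  · rw [inner_smul_left, inner_smul_right, hmu, ← htt]
    simp
    field_simp
  · rw [inner_smul_right]
    have : inner ℝ x (A x) = 0 := by
      have h1 := hA x x
      rw [real_inner_comm] at h1
      linarith
    rw [this, mul_zero]
  · rw [smul_smul, mul_inv_cancel₀ ht0.ne', one_smul]
  · rw [map_smul, hAA, ← htt, smul_neg, smul_smul, neg_smul]
    congr 2
    field_simp

/-- **Normal form** of a skew-adjoint operator. -/
theorem exists_normal [FiniteDimensional ℝ V] : ∀ (n : ℕ) (A : V →ₗ[ℝ] V),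
    (∀ x y, inner ℝ (A x) y = -inner ℝ x (A y)) → finrank ℝ (LinearMap.range A) ≤ n →
    ∃ (m : ℕ) (e e' : Fin m → V) (t : Fin m → ℝ),
      (∀ a b, inner ℝ (e a) (e b) = if a = b then 1 else 0) ∧
      (∀ a b, inner ℝ (e' a) (e' b) = if a = b then 1 else 0) ∧
      (∀ a b, inner ℝ (e a) (e' b) = 0) ∧
      (∀ v, A v = ∑ a, t a • (inner ℝ (e a) v • e' a - inner ℝ (e' a) v • e a)) ∧
      (∀ a, e a ∈ LinearMap.range A) ∧ (∀ a, e' a ∈ LinearMap.range A) := by
  intro n
  induction n with
  | zero =>
    intro A hA hr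
    have h0 : A = 0 := by
      have : LinearMap.range A = ⊥ := Submodule.finrank_eq_zero.1 (Nat.le_zero.1 hr)
      exact LinearMap.range_eq_bot.1 this
    refine ⟨0, Fin.elim0, Fin.elim0, Fin.elim0, fun a => a.elim0, fun a => a.elim0,
      fun a => a.elim0, ?_, fun a => a.elim0, fun a => a.elim0⟩
    intro v; simp [h0]
  | succ n ih =>
    intro A hA hr
    by_cases h0 : A = 0
    · refine ⟨0, Fin.elim0, Fin.elim0, Fin.elim0, fun a => a.elim0, fun a => a.elim0,
        fun a => a.elim0, ?_, fun a => a.elim0, fun a => a.elim0⟩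
      intro v; simp [h0]
    obtain ⟨x, y, t, ht, hxx, hyy, hxy, hAx, hAy⟩ := exists_plane A hA h0
    have hyx : inner ℝ y x = 0 := by rw [real_inner_comm]; exact hxy
    -- the remaining part
    let P : V →ₗ[ℝ] V :=
      t • ((LinearMap.toSpanSingleton ℝ V y) ∘ₗ (innerSL ℝ x).toLinearMap -
        (LinearMap.toSpanSingleton ℝ V x) ∘ₗ (innerSL ℝ y).toLinearMap)
    have hP : ∀ v, P v = t • (inner ℝ x v • y - inner ℝ y v • x) := by
      intro v; simp [P]
    let A' : V →ₗ[ℝ] V := A - P
    have hA' : ∀ v, A' v = A v - t • (inner ℝ x v • y - inner ℝ y v • x) := by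
      intro v; simp [A', hP]
    have hx1 : A' x = 0 := by rw [hA', hxx, hyx, hAx]; simp
    have hy1 : A' y = 0 := by rw [hA', hxy, hyy, hAy]; simp
    have hskew : ∀ u v, inner ℝ (A' u) v = -inner ℝ u (A' v) := by
      intro u v
      rw [hA', hA', inner_sub_left, inner_sub_right, hA, inner_smul_left, inner_smul_right,
        inner_sub_left, inner_sub_right, inner_smul_left, inner_smul_left, inner_smul_right,
        inner_smul_right, real_inner_comm x u, real_inner_comm y u]
      simp only [conj_trivial]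
      ring
    have hxr : ∀ v, inner ℝ x (A' v) = 0 := by
      intro v
      have := hskew x v
      rw [hx1, inner_zero_left] at this; linarith
    have hyr : ∀ v, inner ℝ y (A' v) = 0 := by
      intro v
      have := hskew y v
      rw [hy1, inner_zero_left] at this; linarith
    have hymem : y ∈ LinearMap.range A := ⟨t⁻¹ • x, by rw [map_smul, hAx, smul_smul,
      inv_mul_cancel₀ ht, one_smul]⟩
    have hxmem : x ∈ LinearMap.range A := ⟨(-t⁻¹) • y, by
      rw [map_smul, hAy, smul_smul, neg_mul_neg, inv_mul_cancel₀ ht, one_smul]⟩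
    have hle : LinearMap.range A' ≤ LinearMap.range A := by
      rintro _ ⟨v, rfl⟩
      rw [hA']
      refine Submodule.sub_mem _ ⟨v, rfl⟩ (Submodule.smul_mem _ _ (Submodule.sub_mem _
        (Submodule.smul_mem _ _ hymem) (Submodule.smul_mem _ _ hxmem)))
    have hlt : LinearMap.range A' < LinearMap.range A := by
      refine lt_of_le_of_ne hle ?_
      intro heq
      rw [← heq] at hxmem
      obtain ⟨v, hv⟩ := hxmem
      have := hxr v
      rw [hv, hxx] at this
      norm_num at this
    have hfr : finrank ℝ (LinearMap.range A') ≤ n := by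
      have := Submodule.finrank_lt_finrank_of_lt hlt
      omega
    obtain ⟨m, e, e', s, h1, h2, h3, h4, h5, h6⟩ := ih A' hskew hfr
    have hxe : ∀ a, inner ℝ x (e a) = 0 := by
      intro a; obtain ⟨v, hv⟩ := h5 a; rw [← hv]; exact hxr v
    have hxe' : ∀ a, inner ℝ x (e' a) = 0 := by
      intro a; obtain ⟨v, hv⟩ := h6 a; rw [← hv]; exact hxr v
    have hye : ∀ a, inner ℝ y (e a) = 0 := by
      intro a; obtain ⟨v, hv⟩ := h5 a; rw [← hv]; exact hyr v
    have hye' : ∀ a, inner ℝ y (e' a) = 0 := by
      intro a; obtain ⟨v, hv⟩ := h6 a; rw [← hv]; exact hyr v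
    refine ⟨m + 1, Fin.cons x e, Fin.cons y e', Fin.cons t s, ?_, ?_, ?_, ?_, ?_, ?_⟩
    · intro a b
      refine Fin.cases ?_ (fun a => ?_) a <;> refine Fin.cases ?_ (fun b => ?_) b
      · simpa only [Fin.cons_zero, if_true] using hxx
      · simp [hxe, (Fin.succ_ne_zero b).symm]
      · simp only [Fin.cons_succ, Fin.cons_zero, Fin.succ_ne_zero, if_false]
        rw [real_inner_comm]; exact hxe a
      · simp [h1]
    · intro a b
      refine Fin.cases ?_ (fun a => ?_) a <;> refine Fin.cases ?_ (fun b => ?_) b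
      · simpa only [Fin.cons_zero, if_true] using hyy
      · simp [hye', (Fin.succ_ne_zero b).symm]
      · simp only [Fin.cons_succ, Fin.cons_zero, Fin.succ_ne_zero, if_false]
        rw [real_inner_comm]; exact hye' a
      · simp [h2]
    · intro a b
      refine Fin.cases ?_ (fun a => ?_) a <;> refine Fin.cases ?_ (fun b => ?_) b
      · simp [hxy]
      · simp [hxe']
      · simp only [Fin.cons_succ, Fin.cons_zero]
        rw [real_inner_comm]; exact hye a
      · simp [h3]
    · intro v
      rw [Fin.sum_univ_succ]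
      simp only [Fin.cons_zero, Fin.cons_succ]
      rw [← h4 v, hA']
      abel
    · intro a
      refine Fin.cases ?_ (fun a => ?_) a
      · simpa using hxmem
      · simpa using hle (h5 a)
    · intro a
      refine Fin.cases ?_ (fun a => ?_) a
      · simpa using hymem
      · simpa using hle (h6 a)

theorem two_mul_le_finrank [FiniteDimensional ℝ V] {m : ℕ} {e e' : Fin m → V}
    (h1 : ∀ a b, inner ℝ (e a) (e b) = if a = b then (1 : ℝ) else 0)
    (h2 : ∀ a b, inner ℝ (e' a) (e' b) = if a = b then (1 : ℝ) else 0)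
    (h3 : ∀ a b, inner ℝ (e a) (e' b) = (0 : ℝ)) : 2 * m ≤ finrank ℝ V := by
  have ho : Orthonormal ℝ (Sum.elim e e') := by
    rw [orthonormal_iff_ite]
    rintro (a | a) (b | b)
    · simp [h1]
    · simp [h3]
    · simp only [Sum.elim_inr, Sum.elim_inl, reduceCtorEq, if_false]
      rw [real_inner_comm]; exact h3 b a
    · simp [h2]
  have := ho.linearIndependent.fintype_card_le_finrank
  simpa [two_mul] using this

end Run7.h232.Pinch
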