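import Pool.Agent.Run7.h232.Pinch.Defs2
import Pool.Agent.Run7.h232.Pinch.Coord

/-!
# The two forms of the coordinate definitions agree
-/

set_option linter.unusedSimpArgs false
set_option maxSynthPendingDepth 3
set_option linter.unusedSectionVars false
set_option linter.deprecated false

open Finset Module Filter Topology

namespace Run7.h232.Pinch

variable {E : Type*} [NormedAddCommGroup E] [NormedSpace ℝ E] [FiniteDimensional ℝ E]
  {G : E → E →L[ℝ] E →L[ℝ] ℝ} {x : E}

/-- the underlying scalar-valued function -/
noncomputable def sc (G : E → E →L[ℝ] E →L[ℝ] ℝ) (y u v : E) : ℝ := G y u v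

theorem chrFirst_eq {y : E} (hd : DifferentiableAt ℝ G y) (u v w : E) :
    chrFirst (sc G) y u v w = kos G y u v w := by
  rw [kos_apply hd, chrFirst]
  have h : ∀ a b c : E, fderiv ℝ (fun y' => sc G y' a b) y c = fderiv ℝ G y c a b :=
    fun a b c => fderiv_apply2 hd a b c
  rw [h, h, h]
  ring

theorem chr_eq {y : E} (hd : DifferentiableAt ℝ G y) (hi : (G y).IsInvertible) (u v : E) :
    chr (sc G) y u v = christoffel G y u v := by
  have hex : ∃ c, ∀ w, sc G y c w = chrFirst (sc G) y u v w := by
    refine ⟨christoffel G y u v, fun w => ?_⟩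
    rw [chrFirst_eq hd, ← g_christoffel hi]
    rfl
  have h1 : ∀ w, sc G y (chr (sc G) y u v) w = chrFirst (sc G) y u v w :=
    Classical.epsilon_spec hex
  have h2 : G y (chr (sc G) y u v) = G y (christoffel G y u v) := by
    ext w
    rw [g_christoffel hi, ← chrFirst_eq hd]
    exact h1 w
  exact hi.injective h2

theorem curvTensor_eq (h : MetricAt G x) (u v w z : E) :
    curvTensor (sc G) x u v w z = curv G x u v w z := by
  have h1 : ∀ a b, (fun y => chr (sc G) y a b) =ᶠ[𝓝 x] (fun y => christoffel G y a b) := by
    intro a b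
    filter_upwards [h.diff_ev, h.inv_ev] with y hy hi
    exact chr_eq hy hi a b
  have h2 : ∀ a b, chr (sc G) x a b = christoffel G x a b := fun a b =>
    chr_eq h.diff_ev.self_of_nhds h.inv a b
  rw [curvTensor, curv, riem, riemann]
  simp only [(h1 _ _).fderiv_eq, h2]
  rfl

theorem sectK_eq (h : MetricAt G x) (u v : E) : sectK (sc G) x u v = sect G x u v := by
  rw [sectK, sect, curvTensor_eq h]
  rfl

end Run7.h232.Pinch
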